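import Pool.Agent.DChain.Detect

/-!
# The theorem of Baer and Suzuki

The proof is the one of Alperin and Lyons.
-/

set_option autoImplicit false

namespace Pool.Agent.DChain

open Subgroup
open scoped Pointwise

section

variable {G : Type} [Group G]

/-- In a `p`-group `P` with a set `K` of elements, closed under conjugation by `P`: if `D` is the
intersection of `K` with a subgroup and `D ≠ K ∩ P` then some element of `K ∩ P` outside `D`
normalises `D`. -/
theorem exists_normaliser [Finite G] {p : ℕ} [Fact p.Prime] {P : Subgroup G} (hP : IsPGroup p P)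
    {K D : Set G} (hK : ∀ x ∈ P, ∀ y ∈ K, x * y * x⁻¹ ∈ K) {E : Subgroup G}
    (hD : D = K ∩ P ∩ E) (hne : D ≠ K ∩ P) :
    ∃ x ∈ K ∩ P, x ∉ D ∧ ∀ y ∈ D, x * y * x⁻¹ ∈ D := by
  classical
  let 𝒜 : Set (Subgroup G) := {A | A ≤ P ∧ K ∩ A = D}
  have h𝒜 : 𝒜.Nonempty := by
    refine ⟨P ⊓ E, inf_le_left, ?_⟩
    rw [hD]
    ext x
    constructor
    · rintro ⟨h1, h2, h3⟩
      exact ⟨⟨h1, h2⟩, h3⟩
    · rintro ⟨⟨h1, h2⟩, h3⟩
      exact ⟨h1, h2, h3⟩
  obtain ⟨A, hA⟩ := (Set.toFinite 𝒜).exists_maximal h𝒜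
  obtain ⟨hAP, hAD⟩ := hA.prop
  have hAne : A ≠ P := by
    rintro rfl
    exact hne hAD.symm
  -- the normaliser condition in `P`
  have hnil : Group.IsNilpotent P := hP.isNilpotent
  have hnc := @Group.normalizerCondition_of_isNilpotent P _ hnil
  have hlt : A.subgroupOf P < ⊤ := by
    rw [lt_top_iff_ne_top]
    intro h
    apply hAne
    apply le_antisymm hAP
    rwa [Subgroup.subgroupOf_eq_top] at h
  have h1 := hnc _ hlt
  let B : Subgroup G := (Subgroup.normalizer ((A.subgroupOf P : Subgroup P) : Set P)).map P.subtype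
  have hBP : B ≤ P := by
    rintro _ ⟨x, _, rfl⟩
    exact x.2
  have hAB : A ≤ B := by
    intro x hx
    refine ⟨⟨x, hAP hx⟩, h1.le ?_, rfl⟩
    exact hx
  have hBA : ¬ B ≤ A := by
    intro h
    apply h1.not_ge
    intro x hx
    exact h ⟨x, hx, rfl⟩
  have hBn : ∀ b ∈ B, ∀ a ∈ A, b * a * b⁻¹ ∈ A := by
    rintro _ ⟨b, hb, rfl⟩ a ha
    have h2 := (Subgroup.mem_normalizer_iff.1 hb ⟨a, hAP ha⟩).1 ha
    exact h2
  have hBD : K ∩ B ≠ D := by
    intro h
    exact hBA (hA.le_of_ge ⟨hBP, h⟩ hAB)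
  obtain ⟨x, hx, hxD⟩ : ∃ x ∈ K ∩ B, x ∉ D := by
    by_contra hcon
    push Not at hcon
    apply hBD
    apply Set.Subset.antisymm hcon
    rw [← hAD]
    rintro y ⟨hy1, hy2⟩
    exact ⟨hy1, hAB hy2⟩
  refine ⟨x, ⟨hx.1, hBP hx.2⟩, hxD, ?_⟩
  intro y hy
  rw [← hAD] at hy ⊢
  exact ⟨hK x (hBP hx.2) y hy.1, hBn x hx.2 y hy.2⟩

/-- The theorem of Baer and Suzuki -/
theorem baer_suzuki [Finite G] {p : ℕ} [Fact p.Prime] {K : Set G}
    (hK : ∀ g : G, ∀ y ∈ K, g * y * g⁻¹ ∈ K)
    (h : ∀ x ∈ K, ∀ y ∈ K, IsPGroup p (Subgroup.closure {x, y})) :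
    IsPGroup p (Subgroup.closure K) := by
  classical
  by_cases hall : ∀ P Q : Sylow p G, K ∩ (P : Set G) = K ∩ (Q : Set G)
  · let P : Sylow p G := default
    have hle : Subgroup.closure K ≤ P := by
      rw [Subgroup.closure_le]
      intro x hx
      obtain ⟨Q, hQ⟩ := (h x hx x hx).exists_le_sylow
      have h1 : x ∈ K ∩ (Q : Set G) := ⟨hx, hQ (Subgroup.subset_closure (by simp))⟩
      rw [hall Q P] at h1
      exact h1.2
    exact P.isPGroup'.to_le hle
  · exfalso
    push Not at hall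
    let 𝒮 : Set (Sylow p G × Sylow p G) := {x | K ∩ (x.1 : Set G) ≠ K ∩ (x.2 : Set G)}
    have h𝒮 : 𝒮.Nonempty := by
      obtain ⟨P, Q, hPQ⟩ := hall
      exact ⟨(P, Q), hPQ⟩
    obtain ⟨⟨P, Q⟩, hPQ, hmax⟩ := Set.exists_max_image 𝒮
      (fun x => Set.ncard (K ∩ (x.1 : Set G) ∩ (x.2 : Set G))) (Set.toFinite 𝒮) h𝒮
    change K ∩ (P : Set G) ≠ K ∩ (Q : Set G) at hPQ
    -- `P` and `Q` are conjugate
    have hcard : ∀ P Q : Sylow p G, Set.ncard (K ∩ (P : Set G)) ≤ Set.ncard (K ∩ (Q : Set G)) := by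
      intro P Q
      obtain ⟨g, hg⟩ := MulAction.exists_smul_eq G P Q
      refine Set.ncard_le_ncard_of_injOn (fun x => g * x * g⁻¹) ?_ ?_ (Set.toFinite _)
      · rintro x ⟨hx1, hx2⟩
        refine ⟨hK g x hx1, ?_⟩
        rw [← hg]
        have h1 : g * x * g⁻¹ ∈ MulAut.conj g • (P : Subgroup G) := by
          rw [Subgroup.mem_pointwise_smul_iff_inv_smul_mem]
          have : (MulAut.conj g)⁻¹ • (g * x * g⁻¹) = x := by
            simp [MulAut.smul_def, mul_assoc]
          rw [this]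
          exact hx2
        exact h1
      · intro x _ y _ hxy
        exact mul_left_cancel (mul_right_cancel hxy)
    have hkey : ∀ P Q : Sylow p G, K ∩ (P : Set G) ≠ K ∩ (Q : Set G) →
        K ∩ (P : Set G) ∩ (Q : Set G) ≠ K ∩ (P : Set G) := by
      intro P Q hne heq
      apply hne
      have h1 : K ∩ (P : Set G) ⊆ K ∩ (Q : Set G) := by
        intro x hx
        have h2 := hx
        rw [← heq] at h2
        exact ⟨hx.1, h2.2⟩
      exact Set.eq_of_subset_of_ncard_le h1 (hcard Q P) (Set.toFinite _)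
    obtain ⟨x, hx, hxD, hxn⟩ := exists_normaliser (K := K) (E := (Q : Subgroup G)) P.isPGroup'
      (fun x _ y hy => hK x y hy) rfl (hkey P Q hPQ)
    obtain ⟨y, hy, hyD, hyn⟩ := exists_normaliser (K := K) (E := (P : Subgroup G)) Q.isPGroup'
      (fun x _ y hy => hK x y hy) rfl (hkey Q P hPQ.symm)
    set D : Set G := K ∩ (P : Set G) ∩ (Q : Set G) with hDdef
    have hD2 : K ∩ (Q : Set G) ∩ (P : Set G) = D := by
      rw [hDdef, Set.inter_right_comm]
    have hyD' : y ∉ D := by
      rw [← hD2]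
      exact hyD
    have hyn' : ∀ z ∈ D, y * z * y⁻¹ ∈ D := by
      intro z hz
      rw [← hD2] at hz ⊢
      exact hyn z hz
    let E : Subgroup G := Subgroup.closure {x, y}
    have hE : IsPGroup p E := h x hx.1 y hy.1
    have hDP : Subgroup.closure D ≤ P := by
      rw [Subgroup.closure_le]
      rintro z ⟨⟨_, hz⟩, _⟩
      exact hz
    have hDp : IsPGroup p (Subgroup.closure D) := P.isPGroup'.to_le hDP
    have hnorm : ∀ g : G, (∀ z ∈ D, g * z * g⁻¹ ∈ D) →
        g ∈ Subgroup.normalizer ((Subgroup.closure D : Subgroup G) : Set G) := by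
      intro g hg
      have h1 : ∀ z ∈ Subgroup.closure D, g * z * g⁻¹ ∈ Subgroup.closure D := by
        intro z hz
        induction hz using Subgroup.closure_induction with
        | mem z hz => exact Subgroup.subset_closure (hg z hz)
        | one => simp
        | mul a b _ _ ha hb =>
          have : g * (a * b) * g⁻¹ = (g * a * g⁻¹) * (g * b * g⁻¹) := by group
          rw [this]
          exact Subgroup.mul_mem _ ha hb
        | inv a _ ha =>
          have : g * a⁻¹ * g⁻¹ = (g * a * g⁻¹)⁻¹ := by group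
          rw [this]
          exact Subgroup.inv_mem _ ha
      rw [Subgroup.mem_normalizer_iff]
      intro z
      refine ⟨h1 z, fun hz => ?_⟩
      let f : Subgroup.closure D → Subgroup.closure D := fun z => ⟨g * z * g⁻¹, h1 z z.2⟩
      have hf : Function.Injective f := by
        intro z z' hzz
        have h4 : g * (z : G) * g⁻¹ = g * (z' : G) * g⁻¹ := congrArg Subtype.val hzz
        exact Subtype.ext (mul_left_cancel (mul_right_cancel h4))
      have hs : Function.Surjective f := Finite.injective_iff_surjective.1 hf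
      obtain ⟨z', hz'⟩ := hs ⟨_, hz⟩
      have h5 : g * (z' : G) * g⁻¹ = g * z * g⁻¹ := congrArg Subtype.val hz'
      have h6 : (z' : G) = z := mul_left_cancel (mul_right_cancel h5)
      rw [← h6]
      exact z'.2
    have hEn : E ≤ Subgroup.normalizer ((Subgroup.closure D : Subgroup G) : Set G) := by
      rw [Subgroup.closure_le]
      rintro z hz
      rcases hz with rfl | hz
      · exact hnorm _ hxn
      · rw [Set.mem_singleton_iff] at hz
        rw [hz]
        exact hnorm _ hyn'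
    have hEDp : IsPGroup p (E ⊔ Subgroup.closure D : Subgroup G) :=
      IsPGroup.to_sup_of_normal_right' hE hDp hEn
    obtain ⟨R, hR⟩ := hEDp.exists_le_sylow
    have hDR : D ⊆ R := fun z hz =>
      hR (Subgroup.mem_sup_right (Subgroup.subset_closure hz))
    have hxR : x ∈ (R : Set G) :=
      hR (Subgroup.mem_sup_left (Subgroup.subset_closure (by simp)))
    have hyR : y ∈ (R : Set G) :=
      hR (Subgroup.mem_sup_left (Subgroup.subset_closure (by simp)))
    have hPR : K ∩ (P : Set G) = K ∩ (R : Set G) := by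
      by_contra hne
      have h1 := hmax (P, R) hne
      have h2 : D ⊂ K ∩ (P : Set G) ∩ (R : Set G) := by
        refine ⟨fun z hz => ⟨hz.1, hDR hz⟩, fun hcon => hxD (hcon ⟨hx, hxR⟩)⟩
      exact absurd (Set.ncard_lt_ncard h2 (Set.toFinite _)) (not_lt.2 h1)
    have hQR : K ∩ (Q : Set G) = K ∩ (R : Set G) := by
      by_contra hne
      have h1 := hmax (Q, R) hne
      have h2 : D ⊂ K ∩ (Q : Set G) ∩ (R : Set G) := by
        refine ⟨fun z hz => ⟨⟨hz.1.1, hz.2⟩, hDR hz⟩, fun hcon => hyD' (hcon ⟨hy, hyR⟩)⟩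
      exact absurd (Set.ncard_lt_ncard h2 (Set.toFinite _)) (not_lt.2 h1)
    exact hPQ (hPR.trans hQR.symm)

end

end Pool.Agent.DChain
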