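import Pool.Agent.DChain.Fit

/-!
# A complement of the unique minimal normal subgroup
-/

set_option autoImplicit false

namespace Pool.Agent.DChain

open Subgroup
open scoped Pointwise

section

variable {Y : Type} [Group Y]

theorem isPGroup_of_pg {t : ℕ} {X : Subgroup Y} (h : PG t X) : IsPGroup t X := by
  rintro ⟨x, hx⟩
  obtain ⟨k, hk⟩ := h x hx
  exact ⟨k, Subtype.ext hk⟩

/-- Sylow's theorem for the subgroup `W` -/
theorem exists_syl [Finite Y] {N W : Subgroup Y} [hN : N.Normal] {t : ℕ}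
    (ht : t.Prime) (hW : ∀ w ∈ W, ∃ k : ℕ, w ^ t ^ k ∈ N) :
    ∃ R : Subgroup Y, R ≤ W ∧ PG t R ∧ (∀ w ∈ W, ∃ n ∈ N, ∃ ρ ∈ R, w = n * ρ) ∧
      ∀ P : Subgroup Y, P ≤ W → PG t P → ∃ n ∈ N, ∀ x ∈ P, n⁻¹ * x * n ∈ R := by
  have := Fact.mk ht
  let R0 : Sylow t W := default
  let R : Subgroup Y := (R0 : Subgroup W).map W.subtype
  have hRW : R ≤ W := by
    rintro _ ⟨x, _, rfl⟩
    exact x.2
  have hRt : PG t R := by
    rintro _ ⟨x, hx, rfl⟩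
    obtain ⟨k, hk⟩ := R0.isPGroup' ⟨x, hx⟩
    refine ⟨k, ?_⟩
    have h1 : x ^ t ^ k = 1 := congrArg Subtype.val hk
    exact congrArg Subtype.val h1
  -- `W = N R`
  have hNR : ∀ w ∈ W, ∃ n ∈ N, ∃ ρ ∈ R, w = n * ρ := by
    intro w hw
    let N' : Subgroup W := N.subgroupOf W
    have hN' : N'.Normal := inferInstance
    let π : W →* W ⧸ N' := QuotientGroup.mk' N'
    have hπ : Function.Surjective π := QuotientGroup.mk'_surjective N'
    have hq : IsPGroup t (W ⧸ N') := by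
      intro x
      obtain ⟨v, rfl⟩ := hπ x
      obtain ⟨k, hk⟩ := hW v v.2
      refine ⟨k, ?_⟩
      rw [← map_pow]
      exact (QuotientGroup.eq_one_iff (v ^ t ^ k)).2 hk
    have hmax : ((R0.mapSurjective hπ : Sylow t (W ⧸ N')) : Subgroup (W ⧸ N')) = ⊤ := by
      have h1 : IsPGroup t (⊤ : Subgroup (W ⧸ N')) := hq.to_subgroup ⊤
      exact ((R0.mapSurjective hπ).is_maximal' h1 le_top).symm
    have h2 : π ⟨w, hw⟩ ∈ (R0 : Subgroup W).map π := by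
      have h3 : ((R0.mapSurjective hπ : Sylow t (W ⧸ N')) : Subgroup (W ⧸ N')) =
        (R0 : Subgroup W).map π := Sylow.coe_mapSurjective hπ R0
      rw [← h3, hmax]
      exact Subgroup.mem_top _
    obtain ⟨ρ, hρ, hρe⟩ := h2
    have h4 : (⟨w, hw⟩ : W) * ρ⁻¹ ∈ N' := by
      rw [← QuotientGroup.eq_one_iff]
      change π (⟨w, hw⟩ * ρ⁻¹) = 1
      rw [map_mul, map_inv, hρe, mul_inv_cancel]
    exact ⟨w * (ρ : Y)⁻¹, h4, ρ, ⟨ρ, hρ, rfl⟩, by group⟩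
  refine ⟨R, hRW, hRt, hNR, ?_⟩
  intro P hPW hPt
  have h1 : IsPGroup t (P.subgroupOf W) := by
    rintro ⟨x, hx⟩
    obtain ⟨k, hk⟩ := hPt x hx
    exact ⟨k, Subtype.ext (Subtype.ext hk)⟩
  obtain ⟨P2, hP2⟩ := h1.exists_le_sylow
  obtain ⟨w, hw⟩ := MulAction.exists_smul_eq W R0 P2
  have h2 : ∀ x ∈ P, (w : Y)⁻¹ * x * w ∈ R := by
    intro x hx
    have h3 : (⟨x, hPW hx⟩ : W) ∈ (P2 : Subgroup W) := hP2 hx
    rw [← hw] at h3
    have h4 : (⟨x, hPW hx⟩ : W) ∈ MulAut.conj w • (R0 : Subgroup W) := h3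
    rw [Subgroup.mem_pointwise_smul_iff_inv_smul_mem] at h4
    refine ⟨_, h4, ?_⟩
    simp
  obtain ⟨n, hn, ρ, hρ, hwe⟩ := hNR w w.2
  refine ⟨n, hn, fun x hx => ?_⟩
  have h5 := h2 x hx
  rw [hwe] at h5
  have h6 : n⁻¹ * x * n = ρ * ((n * ρ)⁻¹ * x * (n * ρ)) * ρ⁻¹ := by group
  rw [h6]
  exact R.mul_mem (R.mul_mem hρ h5) (R.inv_mem hρ)

/-- the unique minimal normal subgroup -/
structure Ctx (N : Subgroup Y) (q : ℕ) : Prop where
  nor : N.Normal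
  nb : N ≠ ⊥
  pq : q.Prime
  exp : ∀ x ∈ N, x ^ q = 1
  comm : ∀ x ∈ N, ∀ y ∈ N, x * y = y * x
  uniq : ∀ M : Subgroup Y, M.Normal → M ≠ ⊥ → N ≤ M

/-- a complement -/
structure Cpl (N W : Subgroup Y) (q t : ℕ) (R Q : Subgroup Y) : Prop where
  ctx : Ctx N q
  Wn : W.Normal
  NW : N ≤ W
  ne : W ≠ N
  RW : R ≤ W
  Rt : PG t R
  pt : t.Prime
  tq : t ≠ q
  Wt : ∀ w ∈ W, ∃ k : ℕ, w ^ t ^ k ∈ N
  NR : ∀ w ∈ W, ∃ n ∈ N, ∃ ρ ∈ R, w = n * ρ
  cj : ∀ P : Subgroup Y, P ≤ W → PG t P → ∃ n ∈ N, ∀ x ∈ P, n⁻¹ * x * n ∈ R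
  RQ : R ≤ Q
  Qn : ∀ g, g ∈ Q ↔ ∀ x, x ∈ R ↔ g * x * g⁻¹ ∈ R
  NQ : ∀ y : Y, ∃ n ∈ N, ∃ g ∈ Q, y = n * g
  cap : ∀ x ∈ N, x ∈ Q → x = 1
  cent : ∀ y : Y, (∀ n ∈ N, n * y = y * n) → y ∈ N

theorem exists_cpl [Finite Y] {N W : Subgroup Y} {q t : ℕ} (hc : Ctx N q) (hWn : W.Normal)
    (hNW : N ≤ W) (hne : W ≠ N) (ht : t.Prime) (htq : t ≠ q)
    (hW : ∀ w ∈ W, ∃ k : ℕ, w ^ t ^ k ∈ N) : ∃ R Q : Subgroup Y, Cpl N W q t R Q := by
  have hNn := hc.nor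
  obtain ⟨R, hRW, hRt, hNR, hcj⟩ := exists_syl ht hW
  let Q : Subgroup Y := Subgroup.normalizer (R : Set Y)
  have hQn : ∀ g, g ∈ Q ↔ ∀ x, x ∈ R ↔ g * x * g⁻¹ ∈ R := fun g => Subgroup.mem_normalizer_iff
  have hRQ : R ≤ Q := Subgroup.le_normalizer
  have hcop : Nat.Coprime t q := (Nat.coprime_primes ht hc.pq).2 htq
  -- an element of `N` of `t`-power order is trivial
  have htriv : ∀ x ∈ N, (∃ k : ℕ, x ^ t ^ k = 1) → x = 1 := by
    rintro x hx ⟨k, hk⟩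
    exact eq_one_of_coprime (hcop.pow_left k) hk (hc.exp x hx)
  have hNR1 : ∀ x ∈ N, x ∈ R → x = 1 := fun x hx hxR => htriv x hx (hRt x hxR)
  -- `Y = N Q`
  have hNQ : ∀ y : Y, ∃ n ∈ N, ∃ g ∈ Q, y = n * g := by
    intro y
    let P : Subgroup Y := R.map (MulAut.conj y).toMonoidHom
    have hPW : P ≤ W := by
      rintro _ ⟨x, hx, rfl⟩
      exact hWn.conj_mem x (hRW hx) y
    obtain ⟨n, hn, hP⟩ := hcj P hPW (hRt.map _)
    refine ⟨n, hn, n⁻¹ * y, ?_, by group⟩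
    -- the map `x ↦ (n⁻¹ y) x (n⁻¹ y)⁻¹` maps `R` to `R`
    have h1 : ∀ x ∈ R, (n⁻¹ * y) * x * (n⁻¹ * y)⁻¹ ∈ R := by
      intro x hx
      have h2 := hP (y * x * y⁻¹) ⟨x, hx, rfl⟩
      have h3 : (n⁻¹ * y) * x * (n⁻¹ * y)⁻¹ = n⁻¹ * (y * x * y⁻¹) * n := by group
      rw [h3]
      exact h2
    rw [hQn]
    intro x
    refine ⟨h1 x, fun hx => ?_⟩
    let f : R → R := fun z => ⟨(n⁻¹ * y) * z * (n⁻¹ * y)⁻¹, h1 z z.2⟩
    have hf : Function.Injective f := by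
      intro z z' hzz
      have h4 : (n⁻¹ * y) * (z : Y) * (n⁻¹ * y)⁻¹ = (n⁻¹ * y) * (z' : Y) * (n⁻¹ * y)⁻¹ :=
        congrArg Subtype.val hzz
      exact Subtype.ext (mul_left_cancel (mul_right_cancel h4))
    have hs : Function.Surjective f := Finite.injective_iff_surjective.1 hf
    obtain ⟨z, hz⟩ := hs ⟨_, hx⟩
    have h5 : (n⁻¹ * y) * (z : Y) * (n⁻¹ * y)⁻¹ = (n⁻¹ * y) * x * (n⁻¹ * y)⁻¹ :=
      congrArg Subtype.val hz
    have h6 : (z : Y) = x := mul_left_cancel (mul_right_cancel h5)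
    rw [← h6]
    exact z.2
  -- `N ∩ Q = 1`
  have hcapb : N ⊓ Q = ⊥ := by
    by_contra hb
    have hCn : (N ⊓ Q).Normal := by
      constructor
      rintro c ⟨hcN, hcQ⟩ y
      obtain ⟨n, hn, g, hg, rfl⟩ := hNQ y
      have h1 : g * c * g⁻¹ ∈ N := hNn.conj_mem c hcN g
      have h2 : g * c * g⁻¹ ∈ Q := Q.mul_mem (Q.mul_mem hg hcQ) (Q.inv_mem hg)
      have h3 : n * g * c * (n * g)⁻¹ = g * c * g⁻¹ := by
        calc n * g * c * (n * g)⁻¹ = n * (g * c * g⁻¹) * n⁻¹ := by group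
          _ = g * c * g⁻¹ * n * n⁻¹ := by rw [hc.comm n hn _ h1]
          _ = g * c * g⁻¹ := by group
      rw [h3]
      exact ⟨h1, h2⟩
    have hNle : N ≤ Q := (hc.uniq _ hCn hb).trans inf_le_right
    have hRn : R.Normal := by
      constructor
      intro x hx y
      obtain ⟨n, hn, g, hg, rfl⟩ := hNQ y
      have h1 : n * g ∈ Q := Q.mul_mem (hNle hn) hg
      exact ((hQn _).1 h1 x).1 hx
    have hRb : R ≠ ⊥ := by
      intro hRb
      apply hne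
      refine le_antisymm (fun w hw => ?_) hNW
      obtain ⟨n, hn, ρ, hρ, rfl⟩ := hNR w hw
      rw [hRb, Subgroup.mem_bot] at hρ
      rw [hρ, mul_one]
      exact hn
    have hNR' : N ≤ R := hc.uniq R hRn hRb
    apply hb
    rw [eq_bot_iff]
    rintro x ⟨hx, _⟩
    exact hNR1 x hx (hNR' hx)
  have hcap : ∀ x ∈ N, x ∈ Q → x = 1 := by
    intro x hx hxQ
    have : x ∈ N ⊓ Q := ⟨hx, hxQ⟩
    rw [hcapb] at this
    exact this
  -- the centraliser of `N`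
  have hcent : ∀ y : Y, (∀ n ∈ N, n * y = y * n) → y ∈ N := by
    let K : Subgroup Y := Subgroup.centralizer (N : Set Y) ⊓ Q
    have hKmem : ∀ y, y ∈ K ↔ (∀ n ∈ N, n * y = y * n) ∧ y ∈ Q := by
      intro y
      rw [Subgroup.mem_inf, Subgroup.mem_centralizer_iff]
      rfl
    have hKb : K = ⊥ := by
      by_contra hb
      have hKn : K.Normal := by
        constructor
        intro k hk y
        obtain ⟨hkc, hkQ⟩ := (hKmem k).1 hk
        obtain ⟨n, hn, g, hg, rfl⟩ := hNQ y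
        have h1 : ∀ a ∈ N, a * (g * k * g⁻¹) = g * k * g⁻¹ * a := by
          intro a ha
          have h2 := hkc (g⁻¹ * a * g) (by simpa using hNn.conj_mem a ha g⁻¹)
          calc a * (g * k * g⁻¹) = g * (g⁻¹ * a * g * k) * g⁻¹ := by group
            _ = g * (k * (g⁻¹ * a * g)) * g⁻¹ := by rw [h2]
            _ = g * k * g⁻¹ * a := by group
        have h3 : n * g * k * (n * g)⁻¹ = g * k * g⁻¹ := by
          calc n * g * k * (n * g)⁻¹ = n * (g * k * g⁻¹) * n⁻¹ := by group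
            _ = g * k * g⁻¹ * n * n⁻¹ := by rw [h1 n hn]
            _ = g * k * g⁻¹ := by group
        rw [h3, hKmem]
        exact ⟨h1, Q.mul_mem (Q.mul_mem hg hkQ) (Q.inv_mem hg)⟩
      have hNK := hc.uniq K hKn hb
      have hNb : N = ⊥ := by
        rw [eq_bot_iff, ← hcapb]
        exact fun x hx => ⟨hx, ((hKmem x).1 (hNK hx)).2⟩
      exact absurd hNb hc.nb
    intro y hy
    obtain ⟨n, hn, g, hg, rfl⟩ := hNQ y
    have h1 : g ∈ K := by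
      rw [hKmem]
      refine ⟨fun a ha => ?_, hg⟩
      have h2 := hy a ha
      have h3 : n * (a * g) = n * (g * a) := by
        calc n * (a * g) = n * a * g := by group
          _ = a * n * g := by rw [hc.comm n hn a ha]
          _ = a * (n * g) := by group
          _ = n * g * a := h2
          _ = n * (g * a) := by group
      exact mul_left_cancel h3
    rw [hKb, Subgroup.mem_bot] at h1
    rw [h1, mul_one]
    exact hn
  exact ⟨R, Q, ⟨hc, hWn, hNW, hne, hRW, hRt, ht, htq, hW, hNR, hcj, hRQ, hQn, hNQ, hcap,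
    hcent⟩⟩

end

end Pool.Agent.DChain
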