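import Pool.Agent.DChain.Min

/-!
# Subgroups with few generators detect the iterated nilpotent residuals
-/

set_option autoImplicit false

namespace Pool.Agent.DChain

open Subgroup
open scoped commutatorElement

section

variable {Y : Type} [Group Y]

theorem map_range {G G' : Type} [Group G] [Group G'] {K : ℕ} (φ : G →* G') (g : Fin K → G) :
    (Subgroup.closure (Set.range g)).map φ = Subgroup.closure (Set.range fun i => φ (g i)) := by
  rw [MonoidHom.map_closure]
  congr 1
  exact (Set.range_comp φ g).symm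

theorem exists_fun {K : ℕ} (l : List Y) (hl : l.length ≤ K) :
    ∃ g : Fin K → Y, Subgroup.closure (Set.range g) = Subgroup.closure {v | v ∈ l} := by
  refine ⟨fun i => if h : (i : ℕ) < l.length then l[(i : ℕ)] else 1, ?_⟩
  apply le_antisymm
  · rw [Subgroup.closure_le]
    rintro _ ⟨i, rfl⟩
    by_cases h : (i : ℕ) < l.length
    · simp only [h, dif_pos]
      exact Subgroup.subset_closure (List.getElem_mem h)
    · simp only [h, dif_neg, not_false_eq_true]
      exact Subgroup.one_mem _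
  · rw [Subgroup.closure_le]
    intro v hv
    obtain ⟨i, hi, rfl⟩ := List.getElem_of_mem (show v ∈ l from hv)
    refine Subgroup.subset_closure ⟨⟨i, lt_of_lt_of_le hi hl⟩, ?_⟩
    simp [hi]

theorem mem_of_pg_exp {N : Subgroup Y} {q r : ℕ} (hc : Ctx N q) (hr : r.Prime) (hqr : q ≠ r)
    {x : Y} (hx : x ∈ N) (hk : ∃ k : ℕ, x ^ r ^ k = 1) : x = 1 := by
  obtain ⟨k, hk⟩ := hk
  have hcop : Nat.Coprime r q := (Nat.coprime_primes hr hc.pq).2 (Ne.symm hqr)
  exact eq_one_of_coprime (hcop.pow_left k) hk (hc.exp x hx)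

theorem conj_lift {k : ℕ} (n : Y) (f : Fin k → Y) (w : FreeGroup (Fin k)) :
    n * FreeGroup.lift f w * n⁻¹ = FreeGroup.lift (fun i => n * f i * n⁻¹) w :=
  map_lift (MulAut.conj n).toMonoidHom f w

/-- the case `j = 0` -/
theorem detect_zero [Finite Y] {k K : ℕ} (hkK : k + 1 ≤ K) (W : Set (FreeGroup (Fin k)))
    {r : ℕ} (hr : r.Prime) {N : Subgroup Y} {q : ℕ}
    (hc : Ctx N q) (hqr : q ≠ r) (hT : ∀ x ∈ vb W (⊤ : Subgroup Y), ∃ k : ℕ, x ^ r ^ k ∈ N)
    (h : ∀ g : Fin K → Y, PG r (vb W (Subgroup.closure (Set.range g)))) :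
    PG r (vb W (⊤ : Subgroup Y)) := by
  have hNn := hc.nor
  have hlist : ∀ l : List Y, l.length ≤ K → PG r (vb W (Subgroup.closure {v | v ∈ l})) := by
    intro l hl
    obtain ⟨g, hg⟩ := exists_fun l hl
    rw [← hg]
    exact h g
  -- values centralise `N`
  have hcen : ∀ w ∈ W, ∀ f : Fin k → Y, ∀ n ∈ N,
      n * FreeGroup.lift f w = FreeGroup.lift f w * n := by
    intro w hw f n hn
    let l : List Y := n :: List.ofFn f
    have hl : l.length ≤ K := by simpa [l] using hkK
    have hy : ∀ i, f i ∈ Subgroup.closure {v | v ∈ l} := fun i =>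
      Subgroup.subset_closure (by simp [l])
    have hn' : n ∈ Subgroup.closure {v | v ∈ l} := Subgroup.subset_closure (by simp [l])
    set u := FreeGroup.lift f w with hu
    have h1 : n * u * n⁻¹ * u⁻¹ ∈ vb W (Subgroup.closure {v | v ∈ l}) := by
      refine Subgroup.mul_mem _ ?_ (Subgroup.inv_mem _ (mem_vb W hw hy))
      rw [hu, conj_lift]
      exact mem_vb W hw fun i =>
        Subgroup.mul_mem _ (Subgroup.mul_mem _ hn' (hy i)) (Subgroup.inv_mem _ hn')
    have h2 : n * u * n⁻¹ * u⁻¹ ∈ N := by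
      have h3 : u * n⁻¹ * u⁻¹ ∈ N := hNn.conj_mem _ (N.inv_mem hn) _
      have h4 : n * u * n⁻¹ * u⁻¹ = n * (u * n⁻¹ * u⁻¹) := by group
      rw [h4]
      exact N.mul_mem hn h3
    have h3 := mem_of_pg_exp hc hr hqr h2 (hlist l hl _ h1)
    calc n * u = n * u * n⁻¹ * u⁻¹ * (u * n) := by group
      _ = u * n := by rw [h3, one_mul]
  obtain ⟨R, hRT, hRt, hNR, hcj⟩ := exists_syl (N := N) (W := vb W (⊤ : Subgroup Y)) hr hT
  have hle : vb W (⊤ : Subgroup Y) ≤ R := by
    rw [vb, Subgroup.closure_le]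
    rintro _ ⟨w, hw, f, _, rfl⟩
    have hyT : FreeGroup.lift f w ∈ vb W (⊤ : Subgroup Y) :=
      mem_vb W hw fun i => Subgroup.mem_top _
    have hyr : ∃ k : ℕ, (FreeGroup.lift f w) ^ r ^ k = 1 :=
      hlist (List.ofFn f) (by rw [List.length_ofFn]; omega) _
        (mem_vb W hw fun i => Subgroup.subset_closure (by simp))
    set u := FreeGroup.lift f w with hu
    obtain ⟨n, hn, hP⟩ := hcj (Subgroup.zpowers u) (by rwa [Subgroup.zpowers_le]) (by
      intro z hz
      obtain ⟨i, rfl⟩ := Subgroup.mem_zpowers_iff.1 hz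
      obtain ⟨k, hk⟩ := hyr
      refine ⟨k, ?_⟩
      rw [← zpow_natCast, ← zpow_mul, mul_comm, zpow_mul, zpow_natCast, hk, one_zpow])
    have h1 := hP u (Subgroup.mem_zpowers _)
    have h2 : n⁻¹ * u * n = u := by
      calc n⁻¹ * u * n = n⁻¹ * (u * n) := by group
        _ = n⁻¹ * (n * u) := by rw [hu, hcen w hw f n hn]
        _ = u := by group
    rwa [h2] at h1
  exact PG.mono hle hRt

/-- the set-up for the case `j + 1` -/
theorem exists_W [Finite Y] {k : ℕ} (V : Set (FreeGroup (Fin k))) {e j r : ℕ} (hr : r.Prime)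
    {N : Subgroup Y} {q : ℕ}
    (hc : Ctx N q) (hqr : q ≠ r) (hcard : Nat.card Y ≤ e)
    (hT : ∀ x ∈ F V e (j + 1) (⊤ : Subgroup Y), ∃ k : ℕ, x ^ r ^ k ∈ N)
    (hne : F V e (j + 1) (⊤ : Subgroup Y) ≠ ⊥) :
    ∃ (W : Subgroup Y) (t : ℕ), W.Normal ∧ N ≤ W ∧ W ≠ N ∧ t.Prime ∧ t ≠ q ∧
      ∀ w ∈ W, ∃ k : ℕ, w ^ t ^ k ∈ N := by
  have hNn := hc.nor
  have hTn : (F V e (j + 1) (⊤ : Subgroup Y)).Normal := F_normal V e (j + 1) ⊤
  have hNT : N ≤ F V e (j + 1) (⊤ : Subgroup Y) := hc.uniq _ hTn hne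
  by_cases hTN : F V e (j + 1) (⊤ : Subgroup Y) = N
  · -- `S` is not a `q`-group
    set S : Subgroup Y := F V e j (⊤ : Subgroup Y) with hS
    have hSn : S.Normal := F_normal V e j ⊤
    have hlcs : S.lowerCentralSeries e = N := hTN
    have hcS : Nat.card S ≤ e := (Subgroup.card_le_card_group S).trans hcard
    have hnq : ¬ PG q S := by
      intro hq
      have hp : IsPGroup q S := isPGroup_of_pg hq
      have := Fact.mk hc.pq
      have hnil : Group.IsNilpotent S := hp.isNilpotent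
      have h1 := lcs_of_nil hnil hcS
      exact hc.nb (hlcs ▸ h1)
    obtain ⟨t, ht, htq, u, hu, hut, hu1⟩ : ∃ t : ℕ, t.Prime ∧ t ≠ q ∧ ∃ u ∈ S, u ^ t = 1 ∧
        u ≠ 1 := by
      by_contra hcon
      push Not at hcon
      exact hnq (pg_of_forall_prime hc.pq hcon)
    let π : Y →* Y ⧸ N := QuotientGroup.mk' N
    have hπ : Function.Surjective π := QuotientGroup.mk'_surjective N
    have hker : ∀ y, π y = 1 ↔ y ∈ N := fun y => QuotientGroup.eq_one_iff y
    have hbar : (S.map π).lowerCentralSeries e = ⊥ := by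
      rw [← Subgroup.map_lowerCentralSeries, hlcs, Subgroup.map_eq_bot_iff,
        QuotientGroup.ker_mk']
    obtain ⟨B, hB⟩ := exists_tsub (nil_of_lcs hbar) ht
    have hBn : B.Normal := by
      have hSπ : (S.map π).Normal := hSn.map π hπ
      constructor
      intro x hx g
      rw [hB] at hx ⊢
      obtain ⟨hx1, k, hk⟩ := hx
      exact ⟨hSπ.conj_mem x hx1 g, k, by rw [conj_pow, hk]; group⟩
    refine ⟨B.comap π, t, hBn.comap π, ?_, ?_, ht, htq, ?_⟩
    · intro x hx
      rw [Subgroup.mem_comap, (hker x).2 hx]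
      exact B.one_mem
    · intro h
      have h1 : u ∈ B.comap π := by
        rw [Subgroup.mem_comap, hB]
        exact ⟨⟨u, hu, rfl⟩, 1, by rw [pow_one, ← map_pow, hut, map_one]⟩
      rw [h] at h1
      exact hu1 (mem_of_pg_exp hc ht (Ne.symm htq) h1 ⟨1, by rw [pow_one]; exact hut⟩)
    · intro w hw
      rw [Subgroup.mem_comap, hB] at hw
      obtain ⟨_, k, hk⟩ := hw
      exact ⟨k, (hker _).1 (by rw [map_pow, hk])⟩
  · exact ⟨F V e (j + 1) ⊤, r, hTn, hNT, hTN, hr, Ne.symm hqr, hT⟩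

/-- the step (7) -/
theorem Cpl.seven [Finite Y] {N W R Q : Subgroup Y} {q t : ℕ} (h : Cpl N W q t R Q) {k : ℕ}
    (V : Set (FreeGroup (Fin k))) {e j r : ℕ}
    (hr : r.Prime) (hqr : q ≠ r) {Z : Subgroup Y} (hNZ : N ≤ Z)
    (hZ : PG r (F V e (j + 1) Z)) : PG q (F V e j Z) := by
  have hNn := h.ctx.nor
  -- a subgroup normalised by `Z` without elements of `N` is trivial
  have key : ∀ D : Subgroup Y, D ≤ Z → (∀ z ∈ Z, ∀ x ∈ D, z * x * z⁻¹ ∈ D) →
      (∀ x ∈ D, x ∈ N → x = 1) → D = ⊥ := by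
    intro D hDZ hD hDN
    rw [eq_bot_iff]
    intro x hx
    apply hDN x hx
    apply h.cent
    intro n hn
    have h1 : n * x * n⁻¹ * x⁻¹ ∈ D := D.mul_mem (hD n (hNZ hn) x hx) (D.inv_mem hx)
    have h2 : n * x * n⁻¹ * x⁻¹ ∈ N := by
      have h3 : x * n⁻¹ * x⁻¹ ∈ N := hNn.conj_mem _ (N.inv_mem hn) _
      have h4 : n * x * n⁻¹ * x⁻¹ = n * (x * n⁻¹ * x⁻¹) := by group
      rw [h4]
      exact N.mul_mem hn h3
    have h3 := hDN _ h1 h2
    calc n * x = n * x * n⁻¹ * x⁻¹ * (x * n) := by group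
      _ = x * n := by rw [h3, one_mul]
  have hD : F V e (j + 1) Z = ⊥ := by
    apply key _ (F_le V e (j + 1) Z)
    · intro z hz x hx
      exact conj_mem_F V e (j + 1) (fun y hy => Z.mul_mem (Z.mul_mem hz hy) (Z.inv_mem hz)) hx
    · intro x hx hxN
      exact mem_of_pg_exp h.ctx hr hqr hxN (hZ x hx)
  have hnil : Group.IsNilpotent (F V e j Z) := nil_of_lcs hD
  apply pg_of_forall_prime h.ctx.pq
  intro t' ht' htq' u hu hut
  obtain ⟨B, hB⟩ := exists_tsub hnil ht'
  have hBb : B = ⊥ := by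
    apply key
    · intro x hx
      exact F_le V e j Z ((hB x).1 hx).1
    · intro z hz x hx
      rw [hB] at hx ⊢
      obtain ⟨h1, k, hk⟩ := hx
      exact ⟨conj_mem_F V e j (fun y hy => Z.mul_mem (Z.mul_mem hz hy) (Z.inv_mem hz)) h1, k,
        by rw [conj_pow, hk]; group⟩
    · intro x hx hxN
      exact mem_of_pg_exp h.ctx ht' (Ne.symm htq') hxN ((hB x).1 hx).2
  have : u ∈ B := (hB u).2 ⟨hu, 1, by rw [pow_one]; exact hut⟩
  rw [hBb] at this
  exact this

/-- the step (8) -/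
theorem Cpl.eight [Finite Y] {N W R Q : Subgroup Y} {q t : ℕ} (h : Cpl N W q t R Q) {k : ℕ}
    (V : Set (FreeGroup (Fin k))) {e j : ℕ}
    (hcard : Nat.card Y ≤ e) (hQ : PG q (F V e j Q)) :
    F V e (j + 1) (⊤ : Subgroup Y) = ⊥ := by
  have hNn := h.ctx.nor
  let π : Y →* Y ⧸ N := QuotientGroup.mk' N
  have hker : ∀ y, π y = 1 ↔ y ∈ N := fun y => QuotientGroup.eq_one_iff y
  have h1 : (⊤ : Subgroup Y).map π = Q.map π := by
    apply le_antisymm
    · rintro _ ⟨y, _, rfl⟩
      obtain ⟨n, hn, g, hg, rfl⟩ := h.NQ y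
      exact ⟨g, hg, by rw [map_mul, (hker n).2 hn, one_mul]⟩
    · exact Subgroup.map_mono le_top
  have h2 : (F V e j (⊤ : Subgroup Y)).map π = (F V e j Q).map π := by
    rw [F_map, h1, F_map]
  have h3 : PG q (F V e j (⊤ : Subgroup Y)) := by
    intro x hx
    have h4 : π x ∈ (F V e j Q).map π := h2 ▸ ⟨x, hx, rfl⟩
    obtain ⟨k, hk⟩ := hQ.map π _ h4
    rw [← map_pow, hker] at hk
    exact ⟨k + 1, by rw [pow_succ, pow_mul]; exact h.ctx.exp _ hk⟩
  have := Fact.mk h.ctx.pq
  have hnil : Group.IsNilpotent (F V e j (⊤ : Subgroup Y)) := (isPGroup_of_pg h3).isNilpotent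
  exact lcs_of_nil hnil ((Subgroup.card_le_card_group _).trans hcard)

/-- quotients -/
theorem quot_aux [Finite Y] {k K : ℕ} (V : Set (FreeGroup (Fin k))) {e j r n : ℕ}
    (hcard : Nat.card Y ≤ n + 1) (hs : Group.IsSolvable (vb V (⊤ : Subgroup Y)))
    (h : ∀ g : Fin K → Y, PG r (F V e j (Subgroup.closure (Set.range g))))
    (ih : ∀ (Y : Type) [Group Y] [Finite Y], Group.IsSolvable (vb V (⊤ : Subgroup Y)) →
      Nat.card Y ≤ n → (∀ g : Fin K → Y, PG r (F V e j (Subgroup.closure (Set.range g)))) →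
      PG r (F V e j (⊤ : Subgroup Y)))
    (M : Subgroup Y) (hM : M.Normal) (hMb : M ≠ ⊥) :
    ∀ x ∈ F V e j (⊤ : Subgroup Y), ∃ k : ℕ, x ^ r ^ k ∈ M := by
  intro x hx
  let π : Y →* Y ⧸ M := QuotientGroup.mk' M
  have hπ : Function.Surjective π := QuotientGroup.mk'_surjective M
  have htop : (⊤ : Subgroup Y).map π = ⊤ := Subgroup.map_top_of_surjective π hπ
  have hlt : Nat.card (Y ⧸ M) < Nat.card Y := by
    have h1 := Subgroup.card_eq_card_quotient_mul_card_subgroup M
    have h2 : 1 < Nat.card M := by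
      rw [Subgroup.one_lt_card_iff_ne_bot]
      exact hMb
    have h3 : 0 < Nat.card (Y ⧸ M) := Nat.card_pos
    rw [h1]
    nlinarith
  have hs' : Group.IsSolvable (vb V (⊤ : Subgroup (Y ⧸ M))) := by
    have h1 : (vb V (⊤ : Subgroup Y)).map π = vb V (⊤ : Subgroup (Y ⧸ M)) := by
      rw [vb_map, htop]
    rw [← h1]
    exact Group.isSolvable_of_surjective (π.subgroupMap_surjective (vb V (⊤ : Subgroup Y)))
  have h1 : PG r (F V e j (⊤ : Subgroup (Y ⧸ M))) := by
    apply ih (Y ⧸ M) hs' (by omega)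
    intro g
    obtain ⟨g', hg'⟩ : ∃ g' : Fin K → Y, ∀ i, π (g' i) = g i :=
      ⟨fun i => (hπ (g i)).choose, fun i => (hπ (g i)).choose_spec⟩
    have h2 : (Subgroup.closure (Set.range g')).map π = Subgroup.closure (Set.range g) := by
      rw [map_range]
      congr 2
      exact funext hg'
    rw [← h2, ← F_map]
    exact (h g').map π
  have h2 : π x ∈ F V e j (⊤ : Subgroup (Y ⧸ M)) := by
    rw [← htop, ← F_map]
    exact ⟨x, hx, rfl⟩
  obtain ⟨k, hk⟩ := h1 _ h2
  refine ⟨k, ?_⟩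
  rw [← map_pow] at hk
  exact (QuotientGroup.eq_one_iff _).1 hk

/-- subgroups -/
theorem sub_aux [Finite Y] {k K : ℕ} (V : Set (FreeGroup (Fin k))) {e j r n : ℕ}
    (hs : Group.IsSolvable (vb V (⊤ : Subgroup Y))) (Z : Subgroup Y) (hcard : Nat.card Z ≤ n)
    (h : ∀ g : Fin K → Y, (∀ i, g i ∈ Z) → PG r (F V e j (Subgroup.closure (Set.range g))))
    (ih : ∀ (Y : Type) [Group Y] [Finite Y], Group.IsSolvable (vb V (⊤ : Subgroup Y)) →
      Nat.card Y ≤ n → (∀ g : Fin K → Y, PG r (F V e j (Subgroup.closure (Set.range g)))) →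
      PG r (F V e j (⊤ : Subgroup Y))) :
    PG r (F V e j Z) := by
  have hmap : (⊤ : Subgroup Z).map Z.subtype = Z := by
    rw [← MonoidHom.range_eq_map, Subgroup.range_subtype]
  have hs' : Group.IsSolvable (vb V (⊤ : Subgroup Z)) := by
    have h1 : (vb V (⊤ : Subgroup Z)).map Z.subtype ≤ vb V (⊤ : Subgroup Y) := by
      rw [vb_map]
      exact vb_mono V le_top
    have h2 : Group.IsSolvable ((vb V (⊤ : Subgroup Z)).map Z.subtype) := solvable_of_le h1 hs
    let ε := (vb V (⊤ : Subgroup Z)).equivMapOfInjective Z.subtype Z.subtype_injective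
    exact Group.isSolvable_of_surjective (f := ε.symm.toMonoidHom) ε.symm.surjective
  have h1 : PG r (F V e j (⊤ : Subgroup Z)) := by
    apply ih Z hs' hcard
    intro g
    apply PG.of_map Z.subtype_injective
    rw [F_map, map_range]
    exact h _ fun i => (g i).2
  have h2 := h1.map Z.subtype
  rw [F_map, hmap] at h2
  exact h2

end

/-- The main result of this file. -/
theorem detect_aux {k K : ℕ} (hkK : k + 1 ≤ K) (hK : 2 ≤ K) (V : Set (FreeGroup (Fin k)))
    (e : ℕ) : ∀ j r : ℕ, r.Prime → ∀ n : ℕ, n ≤ e → ∀ (Y : Type) [Group Y]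
    [Finite Y], Group.IsSolvable (vb V (⊤ : Subgroup Y)) → Nat.card Y ≤ n →
    (∀ g : Fin K → Y, PG r (F V e j (Subgroup.closure (Set.range g)))) →
    PG r (F V e j (⊤ : Subgroup Y)) := by
  intro j
  induction j with
  | zero =>
    intro r hr n
    induction n with
    | zero =>
      intro _ Y _ _ _ hY
      have : 0 < Nat.card Y := Nat.card_pos
      omega
    | succ n ih =>
      intro hne Y _ _ hs hcard h
      by_contra hcon
      obtain ⟨N, q, hc, hqr, hT⟩ := exists_ctx (r := r) (F V e 0 (⊤ : Subgroup Y))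
        (F_normal V e 0 ⊤) hs (quot_aux V hcard hs h (ih (by omega))) hcon
      exact hcon (detect_zero hkK V hr hc hqr hT h)
  | succ j ihj =>
    intro r hr n
    induction n with
    | zero =>
      intro _ Y _ _ _ hY
      have : 0 < Nat.card Y := Nat.card_pos
      omega
    | succ n ih =>
      intro hne Y _ _ hs hcard h
      by_contra hcon
      obtain ⟨N, q, hc, hqr, hT⟩ := exists_ctx (r := r) (F V e (j + 1) (⊤ : Subgroup Y))
        (F_normal V e (j + 1) ⊤) (solvable_of_le (F_le_vb V e (j + 1) ⊤) hs)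
        (quot_aux V hcard hs h (ih (by omega))) hcon
      have hTb : F V e (j + 1) (⊤ : Subgroup Y) ≠ ⊥ := by
        intro hb
        apply hcon
        rw [hb]
        intro x hx
        rw [Subgroup.mem_bot] at hx
        exact ⟨0, by rw [hx, one_pow]⟩
      obtain ⟨W, t, hWn, hNW, hWN, ht, htq, hW⟩ := exists_W V hr hc hqr (by omega) hT hTb
      obtain ⟨R, Q, hcpl⟩ := exists_cpl hc hWn hNW hWN ht htq hW
      have hnQ : ¬ PG q (F V e j Q) := fun hQ => hTb (hcpl.eight V (by omega) hQ)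
      obtain ⟨g, hgQ, hg⟩ : ∃ g : Fin K → Y, (∀ i, g i ∈ Q) ∧
          ¬ PG q (F V e j (Subgroup.closure (Set.range g))) := by
        by_contra hcon2
        push Not at hcon2
        exact hnQ (sub_aux V (n := e) hs Q ((Subgroup.card_le_card_group Q).trans (by omega))
          hcon2 (ihj q hc.pq e le_rfl))
      have hNn := hc.nor
      have hQ0 : Subgroup.closure (Set.range g) ≤ Q := by
        rw [Subgroup.closure_le]
        rintro _ ⟨i, rfl⟩
        exact hgQ i
      have hZ : N ⊔ Subgroup.closure (Set.range g) = ⊤ := by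
        by_contra hZ
        set Z := N ⊔ Subgroup.closure (Set.range g) with hZd
        have hlt : Nat.card Z < Nat.card Y := by
          have h1 : Z < ⊤ := lt_top_iff_ne_top.2 hZ
          have h2 := Set.Finite.card_lt_card (Set.toFinite ((⊤ : Subgroup Y) : Set Y))
            (SetLike.coe_ssubset_coe.2 h1)
          simpa using h2
        have h2 : PG r (F V e (j + 1) Z) :=
          sub_aux V (n := n) hs Z (by omega) (fun g _ => h g) (ih (by omega))
        have h3 := hcpl.seven V hr hqr (le_sup_left : N ≤ Z) h2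
        exact hg (h3.mono (F_mono V e j le_sup_right))
      have hQe : Subgroup.closure (Set.range g) = Q := by
        apply le_antisymm hQ0
        intro x hx
        obtain ⟨n, hn, y, hy, hye⟩ := Subgroup.mem_sup_of_normal_left.1
          (show x ∈ N ⊔ Subgroup.closure (Set.range g) by rw [hZ]; exact Subgroup.mem_top x)
        have h1 : n ∈ Q := by
          have : n = x * y⁻¹ := by rw [← hye]; group
          rw [this]
          exact Q.mul_mem hx (Q.inv_mem (hQ0 hy))
        have h2 := hcpl.cap n hn h1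
        rw [← hye, h2, one_mul]
        exact hy
      refine hcpl.contra hK hQe fun g' hg' => hcon ?_
      rw [← hg']
      exact h g'

/-- subgroups with few generators detect the residuals -/
theorem detect {k K : ℕ} (hkK : k + 1 ≤ K) (hK : 2 ≤ K) (V : Set (FreeGroup (Fin k)))
    {e j : ℕ} (Y : Type) [Group Y] [Finite Y] (hs : Group.IsSolvable (vb V (⊤ : Subgroup Y)))
    (hcard : Nat.card Y ≤ e)
    (h : ∀ g : Fin K → Y, F V e j (Subgroup.closure (Set.range g)) = ⊥) :
    F V e j (⊤ : Subgroup Y) = ⊥ := by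
  obtain ⟨r, hr, hrp⟩ := Nat.exists_infinite_primes (Nat.card Y + 1)
  have h1 : PG r (F V e j (⊤ : Subgroup Y)) := by
    apply detect_aux hkK hK V e j r hrp e le_rfl Y hs hcard
    intro g x hx
    rw [h g, Subgroup.mem_bot] at hx
    exact ⟨0, by rw [hx, one_pow]⟩
  rw [eq_bot_iff]
  intro x hx
  obtain ⟨k, hk⟩ := h1 x hx
  have h2 : x ^ Nat.card Y = 1 := pow_card_eq_one'
  have hcop : Nat.Coprime r (Nat.card Y) := by
    rw [Nat.Prime.coprime_iff_not_dvd hrp]
    intro hd
    have := Nat.le_of_dvd Nat.card_pos hd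
    omega
  exact eq_one_of_coprime (hcop.pow_left k) hk h2

end Pool.Agent.DChain
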