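import Mathlib

/-!
# Finitely generated groups of exponent 3 (Burnside) and 4 (Sanov) are finite
-/

set_option autoImplicit false

namespace Pool.Agent.DChain

open Subgroup

section Four

variable {G : Type} [Group G] (H : Subgroup G) (y : G)

/-- products `h₀ y h₁ y ... y h_n` -/
def M : ℕ → Set G
  | 0 => (H : Set G)
  | n + 1 => {g | ∃ a ∈ M n, ∃ h ∈ H, g = a * y * h}

/-- `y h₁ y h₂ ... h_n y` -/
def wd : List G → G
  | [] => y
  | h :: l => y * h * wd l

/-- `h₁ (h₂ (h₃ ...)⁻¹)⁻¹` -/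
def cc : List G → G
  | [] => 1
  | h :: l => h * (cc l)⁻¹

/-- `y h₁ y h₂ ... y h_n` -/
def U : List G → G
  | [] => 1
  | h :: l => y * h * U l

/-- `h₁ y h₂ y ... h_n y` -/
def V : List G → G
  | [] => 1
  | h :: l => h * (y * V l)

theorem M_finite (hH : (H : Set G).Finite) (n : ℕ) : (M H y n).Finite := by
  induction n with
  | zero => exact hH
  | succ n ih =>
    refine ((ih.prod hH).image fun p : G × G => p.1 * y * p.2).subset ?_
    rintro g ⟨a, ha, h, hh, rfl⟩
    exact ⟨(a, h), ⟨ha, hh⟩, rfl⟩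

theorem y_mem_M : y ∈ M H y 1 := ⟨1, H.one_mem, 1, H.one_mem, by simp⟩

theorem M_mul_right {n : ℕ} {a h : G} (ha : a ∈ M H y n) (hh : h ∈ H) : a * h ∈ M H y n := by
  cases n with
  | zero => exact H.mul_mem ha hh
  | succ n =>
    obtain ⟨b, hb, k, hk, rfl⟩ := ha
    exact ⟨b, hb, k * h, H.mul_mem hk hh, by group⟩

theorem M_mul {m n : ℕ} {a b : G} (ha : a ∈ M H y m) (hb : b ∈ M H y n) :
    a * b ∈ M H y (m + n) := by
  induction n generalizing b with
  | zero => exact M_mul_right H y ha hb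
  | succ n ih =>
    obtain ⟨c, hc, k, hk, rfl⟩ := hb
    exact ⟨a * c, ih hc, k, hk, by group⟩

variable {y}

theorem inv_mem_M (hy : y * y ∈ H) {n : ℕ} {a : G} (ha : a ∈ M H y n) : a⁻¹ ∈ M H y n := by
  induction n generalizing a with
  | zero => exact H.inv_mem ha
  | succ n ih =>
    obtain ⟨b, hb, k, hk, rfl⟩ := ha
    have h1 : y⁻¹ ∈ M H y 1 := ⟨1, H.one_mem, (y * y)⁻¹, H.inv_mem hy, by group⟩
    have h2 : (b * y * k)⁻¹ = k⁻¹ * (y⁻¹ * b⁻¹) := by group
    rw [h2]
    have h3 := M_mul H y (M_mul H y (m := 0) (a := k⁻¹) (H.inv_mem hk) h1) (ih hb)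
    have h4 : 0 + 1 + n = n + 1 := by omega
    rw [h4, mul_assoc] at h3
    exact h3

theorem closure_subset (hy : y * y ∈ H) :
    ((H ⊔ Subgroup.closure {y} : Subgroup G) : Set G) ⊆ ⋃ n, M H y n := by
  have h1 : H ⊔ Subgroup.closure {y} = Subgroup.closure ((H : Set G) ∪ {y}) := by
    rw [Subgroup.closure_union, Subgroup.closure_eq]
  intro g hg
  rw [h1] at hg
  have hg' : g ∈ Subgroup.closure ((H : Set G) ∪ {y}) := hg
  clear hg
  rw [Set.mem_iUnion]
  induction hg' using Subgroup.closure_induction with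
  | mem x hx =>
    rcases hx with hx | hx
    · exact ⟨0, hx⟩
    · rw [Set.mem_singleton_iff] at hx
      subst hx
      exact ⟨1, y_mem_M H x⟩
  | one => exact ⟨0, H.one_mem⟩
  | mul a b _ _ ha hb =>
    obtain ⟨m, hm⟩ := ha
    obtain ⟨n, hn⟩ := hb
    exact ⟨m + n, M_mul H y hm hn⟩
  | inv a _ ha =>
    obtain ⟨m, hm⟩ := ha
    exact ⟨m, inv_mem_M H hy hm⟩

theorem cc_mem {l : List G} (hl : ∀ h ∈ l, h ∈ H) : cc l ∈ H := by
  induction l with
  | nil => exact H.one_mem
  | cons h l ih =>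
    exact H.mul_mem (hl h (by simp)) (H.inv_mem (ih fun k hk => hl k (by simp [hk])))

omit H in
theorem cc_cancel (p a b : List G) (h : cc (p ++ a) = cc (p ++ b)) : cc a = cc b := by
  induction p with
  | nil => exact h
  | cons x p ih =>
    simp only [List.cons_append, cc] at h
    exact ih (inv_injective (mul_left_cancel h))

theorem wd_eq (hy : y * y ∈ H) (h4 : ∀ g : G, g ^ 4 = 1) (l : List G) :
    ∀ h : G, h ∈ H → (∀ k ∈ l, k ∈ H) →
      ∃ m ∈ M H y l.length, wd y (h :: l) = y * cc (h :: l) * y * m := by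
  induction l with
  | nil =>
    intro h _ _
    refine ⟨1, H.one_mem, ?_⟩
    simp [wd, cc]
  | cons k l ih =>
    intro h hh hl
    obtain ⟨m, hm, e⟩ := ih k (hl k (by simp)) (fun x hx => hl x (by simp [hx]))
    have hc : cc (k :: l) ∈ H := cc_mem H (fun x hx => hl x hx)
    set c := cc (k :: l) with hcdef
    have h5 : y * c * y = c⁻¹ * y * ((y * y)⁻¹ * c⁻¹ * (y * y)⁻¹) * y * c⁻¹ := by
      have h6 := h4 (y * c)
      have h7 : (y * c) ^ 4 = y * c * y * c * y * c * y * c := by
        simp only [pow_succ, pow_zero, one_mul, mul_assoc]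
      rw [h7] at h6
      have h8 : y * c * y = (y * c * y * c * y * c * y * c) * c⁻¹ * y⁻¹ * c⁻¹ * y⁻¹ * c⁻¹ := by
        group
      rw [h6] at h8
      rw [h8]
      group
    refine ⟨((y * y)⁻¹ * c⁻¹ * (y * y)⁻¹) * (y * (c⁻¹ * m)), ?_, ?_⟩
    · have h9 : (y * y)⁻¹ * c⁻¹ * (y * y)⁻¹ ∈ M H y 0 :=
        H.mul_mem (H.mul_mem (H.inv_mem hy) (H.inv_mem hc)) (H.inv_mem hy)
      have h10 : c⁻¹ * m ∈ M H y (0 + l.length) := M_mul H y (H.inv_mem hc) hm
      have h11 := M_mul H y h9 (M_mul H y (y_mem_M H y) h10)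
      have h12 : 0 + (1 + (0 + l.length)) = (k :: l).length := by
        simp
        omega
      rw [h12] at h11
      exact h11
    · have h13 : wd y (h :: k :: l) = y * h * (y * c * y * m) := by
        rw [← e]
        rfl
      rw [h13, h5]
      simp only [cc]
      change _ = y * (h * c⁻¹) * y * _
      group

omit H in
theorem wd_append (p q : List G) : wd y (p ++ q) = U y p * wd y q := by
  induction p with
  | nil => simp [U]
  | cons h p ih => simp only [List.cons_append, wd, U, ih, mul_assoc]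

omit H in
theorem wd_append' (r s : List G) : wd y (r ++ s) = wd y r * V y s := by
  induction r with
  | nil =>
    induction s with
    | nil => simp [wd, V]
    | cons h s ih =>
      simp only [List.nil_append] at ih ⊢
      simp only [wd, V, ih, mul_assoc]
  | cons h r ih => simp only [List.cons_append, wd, ih, mul_assoc]

theorem U_mem {l : List G} (hl : ∀ h ∈ l, h ∈ H) : U y l ∈ M H y l.length := by
  induction l with
  | nil => exact H.one_mem
  | cons h l ih =>
    have h1 : y * h ∈ M H y 1 := M_mul_right H y (y_mem_M H y) (hl h (by simp))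
    have h2 := M_mul H y h1 (ih fun k hk => hl k (by simp [hk]))
    have h3 : 1 + l.length = (h :: l).length := by simp; omega
    rw [h3] at h2
    exact h2

theorem V_mem {l : List G} (hl : ∀ h ∈ l, h ∈ H) : V y l ∈ M H y l.length := by
  induction l with
  | nil => exact H.one_mem
  | cons h l ih =>
    have h2 := M_mul H y (m := 0) (a := h) (hl h (by simp))
      (M_mul H y (y_mem_M H y) (ih fun k hk => hl k (by simp [hk])))
    have h3 : 0 + (1 + l.length) = (h :: l).length := by simp; omega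
    rw [h3] at h2
    exact h2

theorem exists_word {n : ℕ} {g : G} (hg : g ∈ M H y (n + 1)) :
    ∃ a ∈ H, ∃ l : List G, l.length = n ∧ (∀ h ∈ l, h ∈ H) ∧ ∃ b ∈ H, g = a * wd y l * b := by
  induction n generalizing g with
  | zero =>
    obtain ⟨a, ha, h, hh, rfl⟩ := hg
    exact ⟨a, ha, [], rfl, by simp, h, hh, by simp [wd]⟩
  | succ n ih =>
    obtain ⟨a, ha, h, hh, rfl⟩ := hg
    obtain ⟨a', ha', l, hl, hlH, b, hb, rfl⟩ := ih ha
    refine ⟨a', ha', l ++ [b], by simp [hl], ?_, h, hh, ?_⟩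
    · intro x hx
      rcases List.mem_append.1 hx with hx | hx
      · exact hlH x hx
      · rw [List.mem_singleton] at hx
        subst hx
        exact hb
    · rw [wd_append']
      simp only [V]
      group

/-- long products can be shortened -/
theorem shorten (hy : y * y ∈ H) (h4 : ∀ g : G, g ^ 4 = 1) [Finite H] {n : ℕ}
    (hn : Nat.card H ≤ n) {g : G} (hg : g ∈ M H y (n + 1)) : ∃ i < n + 1, g ∈ M H y i := by
  classical
  obtain ⟨a, ha, l, hl, hlH, b, hb, rfl⟩ := exists_word H hg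
  -- pigeonhole
  have hmemt : ∀ j : ℕ, ∀ h ∈ l.take j, h ∈ H := fun j h hh => hlH h (List.mem_of_mem_take hh)
  let F : Fin (n + 1) → H := fun j => ⟨cc (l.take j), cc_mem H (hmemt j)⟩
  have hF : ¬ Function.Injective F := by
    intro hinj
    have h1 := Nat.card_le_card_of_injective F hinj
    rw [Nat.card_fin] at h1
    omega
  obtain ⟨j, j', hjj, hlt⟩ : ∃ j j' : Fin (n + 1), F j = F j' ∧ j < j' := by
    rw [Function.Injective] at hF
    push Not at hF
    obtain ⟨j, j', h1, h2⟩ := hF
    rcases lt_or_gt_of_ne h2 with h | h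
    · exact ⟨j, j', h1, h⟩
    · exact ⟨j', j, h1.symm, h⟩
  have hcc : cc (l.take j) = cc (l.take j') := congrArg Subtype.val hjj
  set p := l.take (j : ℕ) with hp
  set r := (l.drop (j : ℕ)).take ((j' : ℕ) - j) with hr
  set s := l.drop (j' : ℕ) with hs
  have hj'n : (j' : ℕ) ≤ n := by omega
  have hjlt : (j : ℕ) < j' := hlt
  have htake : l.take (j' : ℕ) = p ++ r := by
    rw [hp, hr]
    have : (j' : ℕ) = j + (j' - j) := by omega
    conv_lhs => rw [this]
    rw [List.take_add]
  have hlpr : l = p ++ (r ++ s) := by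
    rw [← List.append_assoc, ← htake, hs, List.take_append_drop]
  have hrlen : r.length = j' - j := by
    rw [hr, List.length_take, List.length_drop, hl]
    omega
  have hplen : p.length = j := by
    rw [hp, List.length_take, hl]
    omega
  have hslen : s.length = n - j' := by
    rw [hs, List.length_drop, hl]
  have hccr : cc r = 1 := by
    have h1 : cc (p ++ []) = cc (p ++ r) := by rw [List.append_nil, ← htake, hcc]
    exact (cc_cancel p [] r h1).symm
  have hpH : ∀ h ∈ p, h ∈ H := fun h hh => hlH h (by rw [hlpr]; simp [hh])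
  have hrH : ∀ h ∈ r, h ∈ H := fun h hh => hlH h (by rw [hlpr]; simp [hh])
  have hsH : ∀ h ∈ s, h ∈ H := fun h hh => hlH h (by rw [hlpr]; simp [hh])
  obtain ⟨x, r', hxr⟩ : ∃ x r', r = x :: r' := by
    cases hrc : r with
    | nil =>
      rw [hrc] at hrlen
      simp at hrlen
      omega
    | cons x r' => exact ⟨x, r', rfl⟩
  have hr'len : r'.length = j' - j - 1 := by
    rw [hxr, List.length_cons] at hrlen
    omega
  obtain ⟨m, hm, e⟩ := wd_eq H hy h4 r' x (hrH x (by simp [hxr]))
    (fun k hk => hrH k (by simp [hxr, hk]))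
  rw [← hxr, hccr] at e
  have e2 : wd y r = (y * y) * m := by rw [e]; group
  have hwr : wd y r ∈ M H y (0 + r'.length) := by
    rw [e2]
    exact M_mul H y hy hm
  have hw : a * wd y l * b ∈ M H y (0 + (p.length + ((0 + r'.length) + s.length)) + 0) := by
    rw [hlpr, wd_append, wd_append']
    exact M_mul H y (M_mul H y ha (M_mul H y (U_mem H hpH) (M_mul H y hwr (V_mem H hsH)))) hb
  refine ⟨_, ?_, hw⟩
  rw [hplen, hr'len, hslen]
  omega

theorem finite_adjoin_four (hy : y * y ∈ H) (h4 : ∀ g : G, g ^ 4 = 1)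
    (hH : (H : Set G).Finite) : ((H ⊔ Subgroup.closure {y} : Subgroup G) : Set G).Finite := by
  have : Finite H := hH
  have key : ∀ n : ℕ, ∀ g ∈ M H y n, ∃ i ≤ Nat.card H, g ∈ M H y i := by
    intro n
    induction n using Nat.strong_induction_on with
    | _ n ih =>
      intro g hg
      by_cases hn : n ≤ Nat.card H
      · exact ⟨n, hn, hg⟩
      · obtain ⟨k, rfl⟩ : ∃ k, n = k + 1 := ⟨n - 1, by omega⟩
        obtain ⟨i, hi, hgi⟩ := shorten H hy h4 (by omega) hg
        exact ih i hi g hgi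
  refine Set.Finite.subset (Set.Finite.biUnion (Set.finite_Iic (Nat.card H))
    (fun i _ => M_finite H y hH i)) ?_
  intro g hg
  obtain ⟨n, hn⟩ := Set.mem_iUnion.1 (closure_subset H hy hg)
  obtain ⟨i, hi, hgi⟩ := key n g hn
  exact Set.mem_biUnion (Set.mem_Iic.2 hi) hgi

end Four

/-- Sanov's theorem -/
theorem finite_of_exponent_four (G : Type) [Group G] (hfg : Group.FG G)
    (h4 : ∀ g : G, g ^ 4 = 1) : Finite G := by
  classical
  obtain ⟨T, hT⟩ := (Group.fg_def.1 hfg)
  have key : ∀ T : Finset G, ((Subgroup.closure (T : Set G) : Subgroup G) : Set G).Finite := by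
    intro T
    induction T using Finset.induction_on with
    | empty => simp
    | insert a T _ ih =>
      have h1 := finite_adjoin_four (Subgroup.closure (T : Set G)) (y := a * a)
        (by
          have : a * a * (a * a) = 1 := by
            rw [← h4 a]
            simp only [pow_succ, pow_zero, one_mul, mul_assoc]
          rw [this]
          exact Subgroup.one_mem _) h4 ih
      have h2 := finite_adjoin_four
        (Subgroup.closure (T : Set G) ⊔ Subgroup.closure {a * a}) (y := a)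
        (Subgroup.mem_sup_right (Subgroup.subset_closure (by simp))) h4 h1
      refine h2.subset ?_
      have h3 : Subgroup.closure ((insert a T : Finset G) : Set G) ≤
          Subgroup.closure (T : Set G) ⊔ Subgroup.closure {a * a} ⊔ Subgroup.closure {a} := by
        rw [Subgroup.closure_le]
        intro x hx
        rw [Finset.coe_insert, Set.mem_insert_iff] at hx
        rcases hx with rfl | hx
        · exact Subgroup.mem_sup_right (Subgroup.subset_closure (by simp))
        · exact Subgroup.mem_sup_left (Subgroup.mem_sup_left (Subgroup.subset_closure hx))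
      exact h3
  have h5 := key T
  rw [hT] at h5
  exact Set.finite_univ_iff.1 (by simpa using h5)

section Three

variable {G : Type} [Group G] (H : Subgroup G) (y : G)

/-- the four types of products -/
def S3 : Set G := {g | ∃ a ∈ H, ∃ b ∈ H, ∃ c ∈ H,
  g = a ∨ g = a * y * b ∨ g = a * y⁻¹ * b ∨ g = a * y * b * y⁻¹ * c}

theorem S3_finite (hH : (H : Set G).Finite) : (S3 H y).Finite := by
  have h1 : (((H : Set G) ×ˢ ((H : Set G) ×ˢ (H : Set G)))).Finite := hH.prod (hH.prod hH)
  refine (((h1.image fun p : G × G × G => p.1).union (h1.image fun p => p.1 * y * p.2.1)).union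
    ((h1.image fun p => p.1 * y⁻¹ * p.2.1).union
      (h1.image fun p => p.1 * y * p.2.1 * y⁻¹ * p.2.2))).subset ?_
  rintro g ⟨a, ha, b, hb, c, hc, h | h | h | h⟩
  · exact Or.inl (Or.inl ⟨(a, b, c), ⟨ha, hb, hc⟩, h.symm⟩)
  · exact Or.inl (Or.inr ⟨(a, b, c), ⟨ha, hb, hc⟩, h.symm⟩)
  · exact Or.inr (Or.inl ⟨(a, b, c), ⟨ha, hb, hc⟩, h.symm⟩)
  · exact Or.inr (Or.inr ⟨(a, b, c), ⟨ha, hb, hc⟩, h.symm⟩)

variable {y}

theorem S3_mul_right {g h : G} (hg : g ∈ S3 H y) (hh : h ∈ H) : g * h ∈ S3 H y := by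
  obtain ⟨a, ha, b, hb, c, hc, rfl | rfl | rfl | rfl⟩ := hg
  · exact ⟨g * h, H.mul_mem ha hh, 1, H.one_mem, 1, H.one_mem, Or.inl rfl⟩
  · exact ⟨a, ha, b * h, H.mul_mem hb hh, 1, H.one_mem, Or.inr (Or.inl (by group))⟩
  · exact ⟨a, ha, b * h, H.mul_mem hb hh, 1, H.one_mem, Or.inr (Or.inr (Or.inl (by group)))⟩
  · exact ⟨a, ha, b, hb, c * h, H.mul_mem hc hh, Or.inr (Or.inr (Or.inr (by group)))⟩

theorem S3_mul_y (h3 : ∀ g : G, g ^ 3 = 1) {g : G} (hg : g ∈ S3 H y) : g * y ∈ S3 H y := by
  have e1 : ∀ x : G, y * x * y = x⁻¹ * y⁻¹ * x⁻¹ := by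
    intro x
    have h := h3 (y * x)
    have h' : (y * x) ^ 3 = y * x * y * x * y * x := by
      simp only [pow_succ, pow_zero, one_mul, mul_assoc]
    rw [h'] at h
    have h'' : y * x * y = (y * x * y * x * y * x) * x⁻¹ * y⁻¹ * x⁻¹ := by group
    rw [h'', h]
    group
  have e2 : y⁻¹ = y * y := by
    have h := h3 y
    have h' : y ^ 3 = y * y * y := by simp only [pow_succ, pow_zero, one_mul]
    rw [h'] at h
    exact inv_eq_of_mul_eq_one_left h
  have e3 : ∀ x : G, y⁻¹ * x * y = y * x⁻¹ * y⁻¹ * x⁻¹ := by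
    intro x
    calc y⁻¹ * x * y = y * (y * x * y) := by rw [e2]; group
      _ = y * x⁻¹ * y⁻¹ * x⁻¹ := by rw [e1]; group
  obtain ⟨a, ha, b, hb, c, hc, rfl | rfl | rfl | rfl⟩ := hg
  · exact ⟨g, ha, 1, H.one_mem, 1, H.one_mem, Or.inr (Or.inl (by group))⟩
  · refine ⟨a * b⁻¹, H.mul_mem ha (H.inv_mem hb), b⁻¹, H.inv_mem hb, 1, H.one_mem,
      Or.inr (Or.inr (Or.inl ?_))⟩
    calc a * y * b * y = a * (y * b * y) := by group
      _ = a * b⁻¹ * y⁻¹ * b⁻¹ := by rw [e1]; group
  · refine ⟨a, ha, b⁻¹, H.inv_mem hb, b⁻¹, H.inv_mem hb, Or.inr (Or.inr (Or.inr ?_))⟩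
    calc a * y⁻¹ * b * y = a * (y⁻¹ * b * y) := by group
      _ = a * y * b⁻¹ * y⁻¹ * b⁻¹ := by rw [e3]; group
  · refine ⟨a * b⁻¹ * (c * b), H.mul_mem (H.mul_mem ha (H.inv_mem hb)) (H.mul_mem hc hb),
      c * b * c⁻¹, H.mul_mem (H.mul_mem hc hb) (H.inv_mem hc), 1, H.one_mem,
      Or.inr (Or.inl ?_)⟩
    have e4 : y⁻¹ * (c * b)⁻¹ * y⁻¹ = (c * b) * y * (c * b) := by
      have h := congrArg (fun x => x⁻¹) (e1 (c * b))
      simp only [mul_inv_rev, inv_inv] at h ⊢
      calc y⁻¹ * (b⁻¹ * c⁻¹) * y⁻¹ = y⁻¹ * (b⁻¹ * c⁻¹ * y⁻¹) := by group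
        _ = c * b * (y * (c * b)) := h
        _ = _ := by group
    calc a * y * b * y⁻¹ * c * y = a * (y * b) * (y⁻¹ * c * y) := by group
      _ = a * (y * b * y) * (c⁻¹ * y⁻¹ * c⁻¹) := by rw [e3]; group
      _ = a * (b⁻¹ * y⁻¹ * b⁻¹) * (c⁻¹ * y⁻¹ * c⁻¹) := by rw [e1]
      _ = a * b⁻¹ * (y⁻¹ * (c * b)⁻¹ * y⁻¹) * c⁻¹ := by group
      _ = a * b⁻¹ * ((c * b) * y * (c * b)) * c⁻¹ := by rw [e4]
      _ = _ := by group

theorem finite_adjoin_three (h3 : ∀ g : G, g ^ 3 = 1) (hH : (H : Set G).Finite) :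
    ((H ⊔ Subgroup.closure {y} : Subgroup G) : Set G).Finite := by
  refine (S3_finite H y hH).subset ?_
  have h1 : H ⊔ Subgroup.closure {y} = Subgroup.closure ((H : Set G) ∪ {y}) := by
    rw [Subgroup.closure_union, Subgroup.closure_eq]
  have e2 : y⁻¹ = y * y := by
    have h := h3 y
    have h' : y ^ 3 = y * y * y := by simp only [pow_succ, pow_zero, one_mul]
    rw [h'] at h
    exact inv_eq_of_mul_eq_one_left h
  intro g hg
  rw [h1] at hg
  have hg' : g ∈ Subgroup.closure ((H : Set G) ∪ {y}) := hg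
  clear hg
  induction hg' using Subgroup.closure_induction_right with
  | one => exact ⟨1, H.one_mem, 1, H.one_mem, 1, H.one_mem, Or.inl rfl⟩
  | mul_right x _ z hz ih =>
    rcases hz with hz | hz
    · exact S3_mul_right H ih hz
    · rw [Set.mem_singleton_iff] at hz
      subst hz
      exact S3_mul_y H h3 ih
  | mul_inv_cancel x _ z hz ih =>
    rcases hz with hz | hz
    · exact S3_mul_right H ih (H.inv_mem hz)
    · rw [Set.mem_singleton_iff] at hz
      subst hz
      rw [e2, ← mul_assoc]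
      exact S3_mul_y H h3 (S3_mul_y H h3 ih)

end Three

/-- Burnside's theorem for the exponent 3 -/
theorem finite_of_exponent_three (G : Type) [Group G] (hfg : Group.FG G)
    (h3 : ∀ g : G, g ^ 3 = 1) : Finite G := by
  classical
  obtain ⟨T, hT⟩ := (Group.fg_def.1 hfg)
  have key : ∀ T : Finset G, ((Subgroup.closure (T : Set G) : Subgroup G) : Set G).Finite := by
    intro T
    induction T using Finset.induction_on with
    | empty => simp
    | insert a T _ ih =>
      have h1 := finite_adjoin_three (Subgroup.closure (T : Set G)) (y := a) h3 ih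
      refine h1.subset ?_
      have h3 : Subgroup.closure ((insert a T : Finset G) : Set G) ≤
          Subgroup.closure (T : Set G) ⊔ Subgroup.closure {a} := by
        rw [Subgroup.closure_le]
        intro x hx
        rw [Finset.coe_insert, Set.mem_insert_iff] at hx
        rcases hx with rfl | hx
        · exact Subgroup.mem_sup_right (Subgroup.subset_closure (by simp))
        · exact Subgroup.mem_sup_left (Subgroup.subset_closure hx)
      exact h3
  have h5 := key T
  rw [hT] at h5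
  exact Set.finite_univ_iff.1 (by simpa using h5)

end Pool.Agent.DChain
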