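import Pool.Agent.DChain.Local
import Pool.Agent.DChain.Sanov

/-!
# Varieties whose `d`-generated members are finite
-/

set_option autoImplicit false

namespace Pool.Agent.DChain

open Subgroup
open scoped commutatorElement

/-- The group `G` obeys the laws `L`. -/
def Obeys (L : Set (FreeGroup ℕ)) (G : Type) [Group G] : Prop :=
  ∀ w ∈ L, ∀ f : ℕ → G, FreeGroup.lift f w = 1

/-- The group `G` is generated by at most `d` elements. -/
def Gen (d : ℕ) (G : Type) [Group G] : Prop :=
  ∃ g : Fin d → G, Subgroup.closure (Set.range g) = ⊤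

/-- All `d`-generated groups which obey `L` are finite. -/
def FiniteGen (d : ℕ) (L : Set (FreeGroup ℕ)) : Prop :=
  ∀ (G : Type) [Group G], Obeys L G → Gen d G → Finite G

/-- The variety defined by `L` is locally finite. -/
def LocFin (L : Set (FreeGroup ℕ)) : Prop :=
  ∀ (G : Type) [Group G], Obeys L G → Group.FG G → Finite G

/-- The finitely generated groups with `x ^ m = 1` for all `x` are finite. -/
def BurnsideFin (m : ℕ) : Prop :=
  ∀ (B : Type) [Group B], Group.FG B → (∀ b : B, b ^ m = 1) → Finite B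

theorem burnsideFin_of_le_four {m : ℕ} (h1 : 1 ≤ m) (h4 : m ≤ 4) : BurnsideFin m := by
  intro B _ hfg hB
  rcases (show m = 1 ∨ m = 2 ∨ m = 3 ∨ m = 4 by omega) with rfl | rfl | rfl | rfl
  · refine finite_of_exponent_four B hfg fun g => ?_
    rw [show g = 1 by simpa using hB g, one_pow]
  · refine finite_of_exponent_four B hfg fun g => ?_
    rw [show g ^ 4 = (g ^ 2) ^ 2 by rw [← pow_mul], hB g, one_pow]
  · exact finite_of_exponent_three B hfg hB
  · exact finite_of_exponent_four B hfg hB

theorem Obeys.subgroup {L : Set (FreeGroup ℕ)} {G : Type} [Group G] (h : Obeys L G)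
    (H : Subgroup G) : Obeys L H := by
  intro w hw f
  apply H.subtype_injective
  have h1 : H.subtype (FreeGroup.lift f w) = FreeGroup.lift (fun i => (f i : G)) w := by
    have h2 : H.subtype.comp (FreeGroup.lift f) = FreeGroup.lift (fun i => (f i : G)) := by
      ext i
      simp
    exact DFunLike.congr_fun h2 w
  rw [h1, h w hw, map_one]

theorem gen_closure {d : ℕ} {G : Type} [Group G] (l : List G) (hl : l.length ≤ d) :
    Gen d (Subgroup.closure {v | v ∈ l}) := by
  classical
  let H : Subgroup G := Subgroup.closure {v | v ∈ l}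
  have hmem : ∀ (i : ℕ) (h : i < l.length), l[i] ∈ H := fun i h =>
    Subgroup.subset_closure (List.getElem_mem h)
  refine ⟨fun i => if h : (i : ℕ) < l.length then ⟨l[(i : ℕ)], hmem i h⟩ else 1, ?_⟩
  apply Subgroup.map_injective H.subtype_injective
  rw [MonoidHom.map_closure, ← MonoidHom.range_eq_map, Subgroup.range_subtype]
  apply le_antisymm
  · rw [Subgroup.closure_le]
    rintro _ ⟨x, _, rfl⟩
    exact x.2
  · change Subgroup.closure {v | v ∈ l} ≤ _
    rw [Subgroup.closure_le]
    intro v hv
    obtain ⟨i, hi, rfl⟩ := List.getElem_of_mem (show v ∈ l from hv)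
    refine Subgroup.subset_closure ⟨_, ⟨⟨i, lt_of_lt_of_le hi hl⟩, rfl⟩, ?_⟩
    simp [hi]

theorem exists_lift_list {G : Type} [Group G] (H : Subgroup G) (ys : List G)
    (h : ∀ y ∈ ys, y ∈ H) : ∃ ys' : List H, ys'.map H.subtype = ys := by
  induction ys with
  | nil => exact ⟨[], rfl⟩
  | cons y ys ih =>
    obtain ⟨ys', h'⟩ := ih (fun z hz => h z (by simp [hz]))
    exact ⟨⟨y, h y (by simp)⟩ :: ys', by simp [← h']⟩

theorem torsion_of_finiteGen {d : ℕ} (hd : 1 ≤ d) {L : Set (FreeGroup ℕ)} (hL : FiniteGen d L)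
    {G : Type} [Group G] (hG : Obeys L G) : IsMulTorsion G := by
  intro g
  have h1 : Finite (Subgroup.closure {v | v ∈ [g]}) :=
    hL _ (hG.subgroup _) (gen_closure [g] (by simpa using hd))
  have h2 : g ∈ Subgroup.closure {v | v ∈ [g]} := Subgroup.subset_closure (by simp)
  have h3 : IsOfFinOrder (⟨g, h2⟩ : Subgroup.closure {v | v ∈ [g]}) := isOfFinOrder_of_finite _
  exact (MonoidHom.isOfFinOrder (Subgroup.closure {v | v ∈ [g]}).subtype h3)

/-- general principle -/
theorem locFin_of_chain {d k j : ℕ} (hd : 1 ≤ d) (hkj : k + j ≤ d)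
    (W : Set (FreeGroup (Fin k))) (L : Set (FreeGroup ℕ))
    (hW : ∀ (B : Type) [Group B], Group.FG B → IsMulTorsion B →
      (∀ w ∈ W, ∀ f : Fin k → B, FreeGroup.lift f w = 1) → Finite B)
    (hL : FiniteGen d L)
    (hlaw : ∀ (H : Type) [Group H], Obeys L H → Gen d H →
      ∀ w ∈ W, ∀ (f : Fin k → H) (ys : List H), ys.length = j →
        chain (FreeGroup.lift f w) ys = 1) : LocFin L := by
  intro G _ hG hfg
  refine finite_of_chain W hW j G hfg (torsion_of_finiteGen hd hL hG) ?_
  intro w hw f ys hys
  let l : List G := List.ofFn f ++ ys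
  have hll : l.length ≤ d := by
    simp only [l, List.length_append, List.length_ofFn]
    omega
  let H : Subgroup G := Subgroup.closure {v | v ∈ l}
  have hf : ∀ i, f i ∈ H := fun i =>
    Subgroup.subset_closure (List.mem_append_left _ (by simp))
  have hy : ∀ y ∈ ys, y ∈ H := fun y hy =>
    Subgroup.subset_closure (List.mem_append_right _ hy)
  obtain ⟨ys', hys'⟩ := exists_lift_list H ys hy
  have h1 := hlaw H (hG.subgroup H) (gen_closure l hll) w hw (fun i => ⟨f i, hf i⟩) ys'
    (by rw [← hys, ← hys', List.length_map])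
  have h2 := map_chain H.subtype (FreeGroup.lift (fun i => (⟨f i, hf i⟩ : H)) w) ys'
  have h3 : H.subtype (FreeGroup.lift (fun i => (⟨f i, hf i⟩ : H)) w) = FreeGroup.lift f w := by
    have h4 : H.subtype.comp (FreeGroup.lift (fun i => (⟨f i, hf i⟩ : H))) =
        FreeGroup.lift f := by
      ext i
      simp
    exact DFunLike.congr_fun h4 w
  rw [h1, map_one, h3, hys'] at h2
  exact h2.symm

theorem chain_mem_derived {H : Type} [Group H] (N : Subgroup H) [N.Normal] {z : H} (hz : z ∈ N)
    (ys : List H) : chain z ys ∈ (derivedSeries N ys.length).map N.subtype := by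
  induction ys using List.reverseRecOn with
  | nil => exact ⟨⟨z, hz⟩, Subgroup.mem_top _, rfl⟩
  | append_singleton ys y ih =>
    rw [chain_concat, List.length_append, List.length_singleton, derivedSeries_succ,
      Subgroup.map_commutator]
    refine Subgroup.commutator_mem_commutator ih ?_
    have hn : ((derivedSeries N ys.length).map N.subtype).Normal := inferInstance
    have := hn.conj_mem _ ih y⁻¹
    simpa using this

theorem commutator_lcs_le {H : Type} [Group H] (b : ℕ) : ∀ a : ℕ,
    ⁅(⊤ : Subgroup H).lowerCentralSeries a, (⊤ : Subgroup H).lowerCentralSeries b⁆ ≤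
      (⊤ : Subgroup H).lowerCentralSeries (a + b + 1) := by
  induction b with
  | zero => exact fun a => le_rfl
  | succ b ih =>
    intro a
    set K : Subgroup H := (⊤ : Subgroup H).lowerCentralSeries (a + (b + 1) + 1) with hK
    have hKn : K.Normal := inferInstance
    let π : H →* H ⧸ K := QuotientGroup.mk' K
    have hle : ∀ X : Subgroup H, X.map π = ⊥ ↔ X ≤ K := by
      intro X
      rw [Subgroup.map_eq_bot_iff, QuotientGroup.ker_mk']
    rw [← hle, Subgroup.map_commutator, Subgroup.commutator_comm,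
      Subgroup.lowerCentralSeries_succ, Subgroup.map_commutator]
    apply Subgroup.commutator_commutator_eq_bot_of_rotate
    · rw [← Subgroup.map_commutator, ← Subgroup.map_commutator, hle]
      have h1 := ih (a + 1)
      have h2 : ⁅(⊤ : Subgroup H), (⊤ : Subgroup H).lowerCentralSeries a⁆ =
          (⊤ : Subgroup H).lowerCentralSeries (a + 1) := by
        rw [Subgroup.commutator_comm]
        rfl
      rw [h2]
      have h3 : a + 1 + b + 1 = a + (b + 1) + 1 := by omega
      rw [h3] at h1
      exact h1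
    · rw [← Subgroup.map_commutator, ← Subgroup.map_commutator, hle]
      have h1 := ih a
      have h2 := Subgroup.commutator_mono h1 (le_refl (⊤ : Subgroup H))
      exact h2

theorem chain_mem_lcs {H : Type} [Group H] (z : H) (ys : List H) :
    chain z ys ∈ (⊤ : Subgroup H).lowerCentralSeries (2 ^ (ys.length + 1) - 2) := by
  induction ys using List.reverseRecOn with
  | nil => exact Subgroup.mem_top _
  | append_singleton ys y ih =>
    rw [chain_concat, List.length_append, List.length_singleton]
    set s := 2 ^ (ys.length + 1) - 2 with hs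
    set u := chain z ys with hu
    have hpow : 2 ≤ 2 ^ (ys.length + 1) := by
      calc 2 = 2 ^ 1 := rfl
        _ ≤ 2 ^ (ys.length + 1) := Nat.pow_le_pow_right (by norm_num) (by omega)
    have he : 2 ^ (ys.length + 1 + 1) - 2 = s + (s + 1) + 1 := by
      rw [pow_succ, hs]
      omega
    rw [he]
    have h1 : ⁅u⁻¹, y⁻¹⁆ ∈ (⊤ : Subgroup H).lowerCentralSeries (s + 1) :=
      Subgroup.commutator_mem_commutator (Subgroup.inv_mem _ ih) (Subgroup.mem_top _)
    have h2 : ⁅u, ⁅u⁻¹, y⁻¹⁆⁆ ∈ (⊤ : Subgroup H).lowerCentralSeries (s + (s + 1) + 1) :=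
      commutator_lcs_le (s + 1) s (Subgroup.commutator_mem_commutator ih h1)
    have h3 : step u y = u * ⁅u, ⁅u⁻¹, y⁻¹⁆⁆ * u⁻¹ := by
      simp only [step, commutatorElement_def]
      group
    rw [h3]
    have hn : ((⊤ : Subgroup H).lowerCentralSeries (s + (s + 1) + 1)).Normal := inferInstance
    exact hn.conj_mem _ h2 u

/-- The set `W` of words contains a power `x ^ m`, `1 ≤ m ≤ 4`, or all finitely generated groups
with the laws `L` and `W` are finite. -/
def Good {k : ℕ} (L : Set (FreeGroup ℕ)) (W : Set (FreeGroup (Fin k))) : Prop :=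
  (∃ (i : Fin k) (m : ℕ), 1 ≤ m ∧ m ≤ 4 ∧ FreeGroup.of i ^ m ∈ W) ∨
    ∀ (B : Type) [Group B], Obeys L B → Group.FG B →
      (∀ w ∈ W, ∀ f : Fin k → B, FreeGroup.lift f w = 1) → Finite B

theorem Good.finite {k : ℕ} {L : Set (FreeGroup ℕ)} {W : Set (FreeGroup (Fin k))}
    (h : Good L W) (B : Type) [Group B] (hL : Obeys L B) (hfg : Group.FG B)
    (hB : ∀ w ∈ W, ∀ f : Fin k → B, FreeGroup.lift f w = 1) : Finite B := by
  rcases h with ⟨i, m, h1, h4, hm⟩ | h
  · refine burnsideFin_of_le_four h1 h4 B hfg fun b => ?_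
    have := hB _ hm (fun _ => b)
    simpa using this
  · exact h B hL hfg hB

end Pool.Agent.DChain
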