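import Mathlib

/-!
# Iterated nilpotent residuals

`F W e j X` is obtained from the verbal subgroup of `X` given by the set of words `W` by taking
`j` times the term with index `e` of the lower central series.
-/

set_option autoImplicit false

namespace Pool.Agent.DChain

open Subgroup

section

variable {G G' : Type} [Group G] [Group G']

/-- the orders of the elements of `X` are powers of `r` -/
def PG (r : ℕ) (X : Subgroup G) : Prop := ∀ x ∈ X, ∃ k : ℕ, x ^ r ^ k = 1

theorem PG.mono {r : ℕ} {X Y : Subgroup G} (h : X ≤ Y) (hY : PG r Y) : PG r X :=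
  fun x hx => hY x (h hx)

theorem PG.map {r : ℕ} {X : Subgroup G} (h : PG r X) (φ : G →* G') : PG r (X.map φ) := by
  rintro _ ⟨x, hx, rfl⟩
  obtain ⟨k, hk⟩ := h x hx
  exact ⟨k, by rw [← map_pow, hk, map_one]⟩

theorem PG.of_map {r : ℕ} {X : Subgroup G} {φ : G →* G'} (hφ : Function.Injective φ)
    (h : PG r (X.map φ)) : PG r X := by
  intro x hx
  obtain ⟨k, hk⟩ := h (φ x) ⟨x, hx, rfl⟩
  exact ⟨k, hφ (by rw [map_pow, hk, map_one])⟩

/-- the verbal subgroup of `X` -/
def vb {k : ℕ} (W : Set (FreeGroup (Fin k))) (X : Subgroup G) : Subgroup G :=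
  Subgroup.closure {y | ∃ w ∈ W, ∃ f : Fin k → G, (∀ i, f i ∈ X) ∧ FreeGroup.lift f w = y}

variable {k : ℕ} (W : Set (FreeGroup (Fin k)))

theorem vb_mono {X Y : Subgroup G} (h : X ≤ Y) : vb W X ≤ vb W Y := by
  apply Subgroup.closure_mono
  rintro y ⟨w, hw, f, hf, rfl⟩
  exact ⟨w, hw, f, fun i => h (hf i), rfl⟩

theorem mem_vb {X : Subgroup G} {w : FreeGroup (Fin k)} (hw : w ∈ W) {f : Fin k → G}
    (hf : ∀ i, f i ∈ X) : FreeGroup.lift f w ∈ vb W X :=
  Subgroup.subset_closure ⟨w, hw, f, hf, rfl⟩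

theorem lift_mem {X : Subgroup G} (w : FreeGroup (Fin k)) {f : Fin k → G}
    (hf : ∀ i, f i ∈ X) : FreeGroup.lift f w ∈ X := by
  have h1 : FreeGroup.lift f w ∈ (FreeGroup.lift f).range := ⟨w, rfl⟩
  rw [FreeGroup.range_lift_eq_closure] at h1
  have h2 : Subgroup.closure (Set.range f) ≤ X := by
    rw [Subgroup.closure_le]
    rintro _ ⟨i, rfl⟩
    exact hf i
  exact h2 h1

theorem vb_le (X : Subgroup G) : vb W X ≤ X := by
  rw [vb, Subgroup.closure_le]
  rintro y ⟨w, _, f, hf, rfl⟩
  exact lift_mem w hf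

theorem map_lift (φ : G →* G') (f : Fin k → G) (w : FreeGroup (Fin k)) :
    φ (FreeGroup.lift f w) = FreeGroup.lift (fun i => φ (f i)) w := by
  have h : φ.comp (FreeGroup.lift f) = FreeGroup.lift (fun i => φ (f i)) := by
    ext i
    simp
  exact DFunLike.congr_fun h w

theorem vb_map (X : Subgroup G) (φ : G →* G') : (vb W X).map φ = vb W (X.map φ) := by
  rw [vb, MonoidHom.map_closure, vb]
  congr 1
  ext z
  constructor
  · rintro ⟨y, ⟨w, hw, f, hf, rfl⟩, rfl⟩
    exact ⟨w, hw, fun i => φ (f i), fun i => ⟨f i, hf i, rfl⟩, (map_lift φ f w).symm⟩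
  · rintro ⟨w, hw, f, hf, rfl⟩
    choose f' hf' hff using hf
    refine ⟨FreeGroup.lift f' w, ⟨w, hw, f', hf', rfl⟩, ?_⟩
    rw [map_lift]
    congr 2
    exact funext hff

/-- the iterated residuals -/
def F (e : ℕ) : ℕ → Subgroup G → Subgroup G
  | 0, X => vb W X
  | j + 1, X => (F e j X).lowerCentralSeries e

theorem F_zero (e : ℕ) (X : Subgroup G) : F W e 0 X = vb W X := rfl

theorem F_succ (e j : ℕ) (X : Subgroup G) :
    F W e (j + 1) X = (F W e j X).lowerCentralSeries e := rfl

theorem F_mono (e j : ℕ) {X Y : Subgroup G} (h : X ≤ Y) : F W e j X ≤ F W e j Y := by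
  induction j with
  | zero => exact vb_mono W h
  | succ j ih => exact Subgroup.lowerCentralSeries_mono e ih

theorem F_map (e j : ℕ) (X : Subgroup G) (φ : G →* G') :
    (F W e j X).map φ = F W e j (X.map φ) := by
  induction j with
  | zero => exact vb_map W X φ
  | succ j ih => rw [F_succ, Subgroup.map_lowerCentralSeries, ih, F_succ]

theorem F_succ_le (e j : ℕ) (X : Subgroup G) : F W e (j + 1) X ≤ F W e j X :=
  Subgroup.lowerCentralSeries_antitone _ (Nat.zero_le e)

theorem F_le_vb (e j : ℕ) (X : Subgroup G) : F W e j X ≤ vb W X := by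
  induction j with
  | zero => exact le_rfl
  | succ j ih => exact (F_succ_le W e j X).trans ih

theorem F_le (e j : ℕ) (X : Subgroup G) : F W e j X ≤ X :=
  (F_le_vb W e j X).trans (vb_le W X)

/-- elements which normalise `X` normalise `F e m j X` -/
theorem conj_mem_F (e j : ℕ) {X : Subgroup G} {g : G} (hg : ∀ x ∈ X, g * x * g⁻¹ ∈ X) {y : G}
    (hy : y ∈ F W e j X) : g * y * g⁻¹ ∈ F W e j X := by
  have h1 : (MulAut.conj g).toMonoidHom y ∈ (F W e j X).map (MulAut.conj g).toMonoidHom :=
    ⟨y, hy, rfl⟩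
  rw [F_map] at h1
  have h2 : X.map (MulAut.conj g).toMonoidHom ≤ X := by
    rintro _ ⟨x, hx, rfl⟩
    exact hg x hx
  exact F_mono W e j h2 h1

theorem F_normal (e j : ℕ) (X : Subgroup G) [hX : X.Normal] : (F W e j X).Normal :=
  ⟨fun _ hy g => conj_mem_F W e j (fun x hx => hX.conj_mem x hx g) hy⟩

theorem nil_of_lcs {e : ℕ} {X : Subgroup G} (h : X.lowerCentralSeries e = ⊥) :
    Group.IsNilpotent X :=
  Subgroup.isNilpotent_iff_lowerCentralSeries X |>.2 ⟨e, h⟩

theorem lcs_of_nil {e : ℕ} {X : Subgroup G} [Finite X] (hX : Group.IsNilpotent X)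
    (he : Nat.card X ≤ e) : X.lowerCentralSeries e = ⊥ := by
  obtain ⟨n, hn⟩ := (Subgroup.isNilpotent_iff_lowerCentralSeries X).1 hX
  have hle : ∀ i, X.lowerCentralSeries i ≤ X := fun i =>
    Subgroup.lowerCentralSeries_antitone X (Nat.zero_le i)
  have hfin : ∀ i, Finite (X.lowerCentralSeries i) := fun i =>
    Finite.Set.subset (X : Set G) (hle i)
  have key : ∀ i, X.lowerCentralSeries i = ⊥ ∨ Nat.card (X.lowerCentralSeries i) + i ≤
      Nat.card X := by
    intro i
    induction i with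
    | zero => right; simp
    | succ i ih =>
      rcases ih with ih | ih
      · left
        rw [Subgroup.lowerCentralSeries_succ, ih, Subgroup.commutator_bot_left]
      · by_cases hb : X.lowerCentralSeries i = ⊥
        · left
          rw [Subgroup.lowerCentralSeries_succ, hb, Subgroup.commutator_bot_left]
        · right
          have hlt : X.lowerCentralSeries (i + 1) < X.lowerCentralSeries i := by
            refine lt_of_le_of_ne (Subgroup.lowerCentralSeries_antitone X (Nat.le_succ i)) ?_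
            intro heq
            have hconst : ∀ k, X.lowerCentralSeries (i + k) = X.lowerCentralSeries i := by
              intro k
              induction k with
              | zero => rfl
              | succ k ihk =>
                rw [← add_assoc, Subgroup.lowerCentralSeries_succ, ihk]
                exact heq
            apply hb
            rw [← hconst n, eq_bot_iff, ← hn]
            exact Subgroup.lowerCentralSeries_antitone X (Nat.le_add_left n i)
          have h1 : Nat.card (X.lowerCentralSeries (i + 1)) <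
              Nat.card (X.lowerCentralSeries i) := by
            have := hfin i
            exact Set.Finite.card_lt_card (hfin i) (SetLike.coe_ssubset_coe.2 hlt)
          omega
  rcases key e with h | h
  · exact h
  · have := hfin e
    have : 0 < Nat.card (X.lowerCentralSeries e) := Nat.card_pos
    omega

/-- the elements of `t`-power order of a finite nilpotent subgroup form a subgroup -/
theorem exists_tsub {S : Subgroup G} [Finite S] (hS : Group.IsNilpotent S) {t : ℕ}
    (ht : t.Prime) : ∃ B : Subgroup G, ∀ x, x ∈ B ↔ x ∈ S ∧ ∃ k : ℕ, x ^ t ^ k = 1 := by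
  have := Fact.mk ht
  let P : Sylow t S := default
  have hP : (P : Subgroup S).Normal := inferInstance
  refine ⟨(P : Subgroup S).map S.subtype, fun x => ⟨?_, ?_⟩⟩
  · rintro ⟨y, hy, rfl⟩
    obtain ⟨k, hk⟩ := P.isPGroup' ⟨y, hy⟩
    refine ⟨y.2, k, ?_⟩
    have h1 : y ^ t ^ k = 1 := congrArg Subtype.val hk
    have h2 := congrArg Subtype.val h1
    exact h2
  · rintro ⟨hx, k, hk⟩
    have h1 : IsPGroup t (Subgroup.zpowers (⟨x, hx⟩ : S)) := by
      rw [IsPGroup.iff_orderOf] 
      rintro ⟨y, hy⟩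
      obtain ⟨i, rfl⟩ := Subgroup.mem_zpowers_iff.1 hy
      have h2 : ((⟨x, hx⟩ : S) ^ i) ^ t ^ k = 1 := by
        rw [← zpow_natCast, ← zpow_mul, mul_comm, zpow_mul, zpow_natCast]
        have : (⟨x, hx⟩ : S) ^ t ^ k = 1 := Subtype.ext hk
        rw [this, one_zpow]
      have h3 : orderOf (⟨(⟨x, hx⟩ : S) ^ i, hy⟩ : Subgroup.zpowers (⟨x, hx⟩ : S)) ∣ t ^ k := by
        apply orderOf_dvd_of_pow_eq_one
        exact Subtype.ext h2
      obtain ⟨n, _, hn⟩ := (Nat.dvd_prime_pow ht).1 h3
      exact ⟨n, hn⟩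
    obtain ⟨Q, hQ⟩ := h1.exists_le_sylow
    have h4 : Q = P := by
      have := Sylow.unique_of_normal P hP
      exact Subsingleton.elim _ _
    rw [h4] at hQ
    exact ⟨⟨x, hx⟩, hQ (Subgroup.mem_zpowers _), rfl⟩

/-- coprime orders -/
theorem eq_one_of_coprime {x : G} {a b : ℕ} (hab : Nat.Coprime a b) (ha : x ^ a = 1)
    (hb : x ^ b = 1) : x = 1 := by
  have h1 := orderOf_dvd_of_pow_eq_one ha
  have h2 := orderOf_dvd_of_pow_eq_one hb
  have h3 : orderOf x ∣ 1 := by
    rw [← hab]
    exact Nat.dvd_gcd h1 h2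
  exact orderOf_eq_one_iff.1 (Nat.dvd_one.1 h3)

theorem pg_of_forall_prime [Finite G] {q : ℕ} (hq : q.Prime) {X : Subgroup G}
    (h : ∀ t : ℕ, t.Prime → t ≠ q → ∀ u ∈ X, u ^ t = 1 → u = 1) : PG q X := by
  intro x hx
  have ho : orderOf x ≠ 0 := (orderOf_pos x).ne'
  have h1 : ∀ t : ℕ, t.Prime → t ∣ orderOf x → t = q := by
    intro t ht hto
    by_contra hne
    have h2 : (x ^ (orderOf x / t)) ^ t = 1 := by
      rw [← pow_mul, Nat.div_mul_cancel hto, pow_orderOf_eq_one]
    have h3 := h t ht hne _ (X.pow_mem hx _) h2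
    have h4 := orderOf_dvd_of_pow_eq_one h3
    have h5 : orderOf x / t < orderOf x := Nat.div_lt_self (Nat.pos_of_ne_zero ho) ht.one_lt
    have h6 : 0 < orderOf x / t := Nat.div_pos (Nat.le_of_dvd (Nat.pos_of_ne_zero ho) hto) ht.pos
    exact absurd (Nat.le_of_dvd h6 h4) (by omega)
  refine ⟨(orderOf x).primeFactorsList.length, ?_⟩
  rw [← Nat.eq_prime_pow_of_unique_prime_dvd ho (fun {d} hd hdd => h1 d hd hdd)]
  exact pow_orderOf_eq_one x

end

end Pool.Agent.DChain
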