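import Pool.Agent.DChain.Cpl

/-!
# Generation by few elements
-/

set_option autoImplicit false

namespace Pool.Agent.DChain

open Subgroup

variable {Y : Type} [Group Y]

theorem Cpl.triv {N W R Q : Subgroup Y} {q t : ℕ} (h : Cpl N W q t R Q) {x : Y} (hx : x ∈ N)
    (hk : ∃ k : ℕ, x ^ t ^ k = 1) : x = 1 := by
  obtain ⟨k, hk⟩ := hk
  have hcop : Nat.Coprime t q := (Nat.coprime_primes h.pt h.ctx.pq).2 h.tq
  exact eq_one_of_coprime (hcop.pow_left k) hk (h.ctx.exp x hx)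

theorem Cpl.half_aux [Finite Y] {N W R Q : Subgroup Y} {q t : ℕ} (h : Cpl N W q t R Q) {K : ℕ}
    {g : Fin K → Y} (hg : Subgroup.closure (Set.range g) = Q) (i : Fin K) {n' : Y} (hn' : n' ∈ N)
    (h1 : Subgroup.closure (Set.range (Function.update g i (n' * g i))) ≠ ⊤) :
    ∃ n ∈ N, (∀ j, j ≠ i → g j * n = n * g j) ∧ n' = n * g i * n⁻¹ * (g i)⁻¹ := by
  have hNn := h.ctx.nor
  have hgQ : ∀ j, g j ∈ Q := fun j => hg ▸ Subgroup.subset_closure ⟨j, rfl⟩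
  set X : Subgroup Y := Subgroup.closure (Set.range (Function.update g i (n' * g i))) with hX
  have hjX : ∀ j, j ≠ i → g j ∈ X := fun j hj =>
    Subgroup.subset_closure ⟨j, Function.update_of_ne hj _ _⟩
  have hbX : n' * g i ∈ X := Subgroup.subset_closure ⟨i, Function.update_self _ _ _⟩
  have htop : N ⊔ X = ⊤ := by
    rw [eq_top_iff]
    intro y _
    obtain ⟨n, hn, x, hx, rfl⟩ := h.NQ y
    have h2 : Q ≤ N ⊔ X := by
      rw [← hg, Subgroup.closure_le]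
      rintro _ ⟨j, rfl⟩
      by_cases hj : j = i
      · rw [hj]
        have h3 : g i = n'⁻¹ * (n' * g i) := by group
        rw [h3]
        exact (N ⊔ X).mul_mem (Subgroup.mem_sup_left (N.inv_mem hn')) (Subgroup.mem_sup_right hbX)
      · exact Subgroup.mem_sup_right (hjX j hj)
    exact (N ⊔ X).mul_mem (Subgroup.mem_sup_left hn) (h2 hx)
  have hdec : ∀ y : Y, ∃ n ∈ N, ∃ x ∈ X, n * x = y := fun y =>
    Subgroup.mem_sup_of_normal_left.1 (by rw [htop]; exact Subgroup.mem_top y)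
  have hXN : ∀ x ∈ X, x ∈ N → x = 1 := by
    have hb : X ⊓ N = ⊥ := by
      by_contra hb
      have hn : (X ⊓ N).Normal := by
        constructor
        rintro c ⟨hcX, hcN⟩ y
        obtain ⟨n, hn, x, hx, rfl⟩ := hdec y
        have h2 : x * c * x⁻¹ ∈ N := hNn.conj_mem c hcN x
        have h3 : n * x * c * (n * x)⁻¹ = x * c * x⁻¹ := by
          calc n * x * c * (n * x)⁻¹ = n * (x * c * x⁻¹) * n⁻¹ := by group
            _ = x * c * x⁻¹ * n * n⁻¹ := by rw [h.ctx.comm n hn _ h2]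
            _ = x * c * x⁻¹ := by group
        rw [h3]
        exact ⟨X.mul_mem (X.mul_mem hx hcX) (X.inv_mem hx), h2⟩
      have hNX : N ≤ X := (h.ctx.uniq _ hn hb).trans inf_le_left
      apply h1
      rw [← htop]
      exact (sup_eq_right.2 hNX).symm
    intro x hx hxN
    have : x ∈ X ⊓ N := ⟨hx, hxN⟩
    rw [hb] at this
    exact this
  have hPt : PG t (X ⊓ W) := by
    rintro x ⟨hx, hxW⟩
    obtain ⟨k, hk⟩ := h.Wt x hxW
    exact ⟨k, hXN _ (X.pow_mem hx _) hk⟩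
  obtain ⟨n, hn, hP⟩ := h.cj (X ⊓ W) inf_le_right hPt
  have hback : ∀ ρ ∈ R, n * ρ * n⁻¹ ∈ X ⊓ W := by
    intro ρ hρ
    have hρW : n * ρ * n⁻¹ ∈ W := h.Wn.conj_mem ρ (h.RW hρ) n
    obtain ⟨n1, hn1, x, hx, hxe⟩ := hdec (n * ρ * n⁻¹)
    have hxW : x ∈ W := by
      have : x = n1⁻¹ * (n * ρ * n⁻¹) := by rw [← hxe]; group
      rw [this]
      exact W.mul_mem (W.inv_mem (h.NW hn1)) hρW
    have h2 := hP x ⟨hx, hxW⟩
    have h3 : n⁻¹ * n1 * n = ρ * (n⁻¹ * x * n)⁻¹ := by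
      have h4 : n1 = n * ρ * n⁻¹ * x⁻¹ := by rw [← hxe]; group
      rw [h4]
      group
    have h5 : n⁻¹ * n1 * n ∈ N := N.mul_mem (N.mul_mem (N.inv_mem hn) hn1) hn
    have h6 : n⁻¹ * n1 * n ∈ R := by
      rw [h3]
      exact R.mul_mem hρ (R.inv_mem h2)
    have h7 : n⁻¹ * n1 * n = 1 := h.triv h5 (h.Rt _ h6)
    have h8 : n1 = 1 := by
      have : n1 = n * (n⁻¹ * n1 * n) * n⁻¹ := by group
      rw [this, h7]
      group
    rw [← hxe, h8, one_mul]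
    exact ⟨hx, hxW⟩
  have hforw : ∀ x ∈ X, ∀ r ∈ R, (n⁻¹ * x * n) * r * (n⁻¹ * x * n)⁻¹ ∈ R := by
    intro x hx r hr
    obtain ⟨h2, h3⟩ := hback r hr
    have h4 : x * (n * r * n⁻¹) * x⁻¹ ∈ X ⊓ W :=
      ⟨X.mul_mem (X.mul_mem hx h2) (X.inv_mem hx), h.Wn.conj_mem _ h3 x⟩
    have h5 := hP _ h4
    have h6 : (n⁻¹ * x * n) * r * (n⁻¹ * x * n)⁻¹ = n⁻¹ * (x * (n * r * n⁻¹) * x⁻¹) * n := by
      group
    rw [h6]
    exact h5
  have hXQ : ∀ x ∈ X, n⁻¹ * x * n ∈ Q := by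
    intro x hx
    rw [h.Qn]
    intro r
    refine ⟨hforw x hx r, fun hr => ?_⟩
    have h2 := hforw x⁻¹ (X.inv_mem hx) _ hr
    have h3 : (n⁻¹ * x⁻¹ * n) * ((n⁻¹ * x * n) * r * (n⁻¹ * x * n)⁻¹) * (n⁻¹ * x⁻¹ * n)⁻¹ = r := by
      group
    rwa [h3] at h2
  refine ⟨n, hn, fun j hj => ?_, ?_⟩
  · set a := g j with ha
    have h2 : a⁻¹ * (n⁻¹ * a * n) ∈ Q := Q.mul_mem (Q.inv_mem (hgQ j)) (hXQ a (hjX j hj))
    have h3 : a⁻¹ * (n⁻¹ * a * n) ∈ N := by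
      have h4 : a⁻¹ * n⁻¹ * a ∈ N := by simpa using hNn.conj_mem n⁻¹ (N.inv_mem hn) a⁻¹
      have h5 : a⁻¹ * (n⁻¹ * a * n) = a⁻¹ * n⁻¹ * a * n := by group
      rw [h5]
      exact N.mul_mem h4 hn
    have h4 := h.cap _ h3 h2
    calc a * n = n * (n⁻¹ * a * n) := by group
      _ = n * (a * (a⁻¹ * (n⁻¹ * a * n))) := by group
      _ = n * a := by rw [h4, mul_one]
  · set b := g i with hb
    have h2 : b⁻¹ * (n⁻¹ * (n' * b) * n) ∈ Q := Q.mul_mem (Q.inv_mem (hgQ i)) (hXQ _ hbX)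
    have h3 : b⁻¹ * (n⁻¹ * (n' * b) * n) ∈ N := by
      have h4 : b⁻¹ * (n⁻¹ * n') * b ∈ N := by
        simpa using hNn.conj_mem (n⁻¹ * n') (N.mul_mem (N.inv_mem hn) hn') b⁻¹
      have h5 : b⁻¹ * (n⁻¹ * (n' * b) * n) = b⁻¹ * (n⁻¹ * n') * b * n := by group
      rw [h5]
      exact N.mul_mem h4 hn
    have h4 := h.cap _ h3 h2
    calc n' = n * (b * (b⁻¹ * (n⁻¹ * (n' * b) * n))) * n⁻¹ * b⁻¹ := by group
      _ = n * b * n⁻¹ * b⁻¹ := by rw [h4, mul_one]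

theorem Cpl.half [Finite Y] {N W R Q : Subgroup Y} {q t : ℕ} (h : Cpl N W q t R Q) {K : ℕ}
    {g : Fin K → Y} (hg : Subgroup.closure (Set.range g) = Q) (i : Fin K)
    (h1 : ∀ g' : Fin K → Y, Subgroup.closure (Set.range g') ≠ ⊤) {j : Fin K} (hj : j ≠ i) :
    g j = 1 := by
  have haQ : g j ∈ Q := hg ▸ Subgroup.subset_closure ⟨j, rfl⟩
  set a := g j with ha
  set b := g i with hb
  let C : Subgroup Y := N ⊓ Subgroup.centralizer {a}
  have hC : ∀ n, n ∈ C ↔ n ∈ N ∧ a * n = n * a := by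
    intro n
    rw [Subgroup.mem_inf, Subgroup.mem_centralizer_iff]
    simp
  have hNn := h.ctx.nor
  have hmem : ∀ n : C, (n : Y) * b * (n : Y)⁻¹ * b⁻¹ ∈ N := by
    intro n
    have h2 : (n : Y) ∈ N := ((hC n).1 n.2).1
    have h3 : b * (n : Y)⁻¹ * b⁻¹ ∈ N := hNn.conj_mem _ (N.inv_mem h2) b
    have h4 : (n : Y) * b * (n : Y)⁻¹ * b⁻¹ = n * (b * (n : Y)⁻¹ * b⁻¹) := by group
    rw [h4]
    exact N.mul_mem h2 h3
  let f : C → N := fun n => ⟨n * b * (n : Y)⁻¹ * b⁻¹, hmem n⟩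
  have hf : Function.Surjective f := by
    rintro ⟨n', hn'⟩
    obtain ⟨n, hn, hc, he⟩ := h.half_aux hg i hn' (h1 _)
    exact ⟨⟨n, (hC n).2 ⟨hn, hc j hj⟩⟩, Subtype.ext he.symm⟩
  have hcard : Nat.card N ≤ Nat.card C := Nat.card_le_card_of_surjective f hf
  have hCN : C = N := Subgroup.eq_of_le_of_card_ge inf_le_left hcard
  have haN : a ∈ N := by
    apply h.cent
    intro n hn
    have : n ∈ C := by rw [hCN]; exact hn
    exact ((hC n).1 this).2.symm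
  exact h.cap a haN haQ

theorem Cpl.contra [Finite Y] {N W R Q : Subgroup Y} {q t : ℕ} (h : Cpl N W q t R Q) {K : ℕ}
    (hK : 2 ≤ K) {g : Fin K → Y} (hg : Subgroup.closure (Set.range g) = Q)
    (h1 : ∀ g' : Fin K → Y, Subgroup.closure (Set.range g') ≠ ⊤) : False := by
  have hall : ∀ j, g j = 1 := by
    intro j
    obtain ⟨i, hi⟩ : ∃ i : Fin K, j ≠ i := by
      by_cases hj : (j : ℕ) = 0
      · exact ⟨⟨1, by omega⟩, fun h => by rw [h] at hj; simp at hj⟩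
      · exact ⟨⟨0, by omega⟩, fun h => hj (by rw [h])⟩
    exact h.half hg i h1 hi
  have hQ : Q = ⊥ := by
    rw [← hg, eq_bot_iff, Subgroup.closure_le]
    rintro _ ⟨j, rfl⟩
    rw [hall j]
    exact Subgroup.one_mem _
  apply h.ne
  refine le_antisymm (fun w hw => ?_) h.NW
  obtain ⟨n, hn, x, hx, rfl⟩ := h.NQ w
  rw [hQ, Subgroup.mem_bot] at hx
  rw [hx, mul_one]
  exact hn

end Pool.Agent.DChain
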