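import Mathlib

/-!
# Torsion groups with iterated commutators `[z, z^y]` that vanish

`chain z [y₁, ..., y_j]` is defined by `z ↦ [z, y₁⁻¹ z y₁] ↦ ...`. If `W` is a set of words such
that all finitely generated torsion groups with the laws `W` are finite, then this is also true for
the laws `chain w [y₁, ..., y_j]`, `w ∈ W`, with new variables `y₁, ..., y_j`.
-/

set_option autoImplicit false

namespace Pool.Agent.DChain

open Subgroup
open scoped commutatorElement

/-- one step -/
def step {G : Type} [Group G] (z y : G) : G := ⁅z, y⁻¹ * z * y⁆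

/-- `z ↦ [z, z^{y₁}] ↦ ...` -/
def chain {G : Type} [Group G] (z : G) (ys : List G) : G := ys.foldl step z

section

variable {G : Type} [Group G]

theorem chain_nil (z : G) : chain z [] = z := rfl

theorem chain_concat (z : G) (ys : List G) (y : G) :
    chain z (ys ++ [y]) = step (chain z ys) y := by
  simp [chain]

theorem map_step {H : Type} [Group H] (φ : G →* H) (z y : G) :
    φ (step z y) = step (φ z) (φ y) := by
  simp [step, commutatorElement_def]

theorem map_chain {H : Type} [Group H] (φ : G →* H) (z : G) (ys : List G) :
    φ (chain z ys) = chain (φ z) (ys.map φ) := by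
  induction ys generalizing z with
  | nil => rfl
  | cons y ys ih =>
    simp only [chain, List.foldl_cons, List.map_cons] at ih ⊢
    rw [ih, map_step]

/-- the normal closure of an element which commutes with all its conjugates is abelian -/
theorem comm_normalClosure (v : G) (hc : ∀ g : G, Commute v (g⁻¹ * v * g)) :
    ∀ a ∈ Subgroup.normalClosure {v}, ∀ b ∈ Subgroup.normalClosure {v}, a * b = b * a := by
  have hconj : ∀ a ∈ Group.conjugatesOfSet ({v} : Set G), ∀ b ∈ Group.conjugatesOfSet {v},
      a * b = b * a := by
    intro a ha b hb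
    rw [Group.mem_conjugatesOfSet_iff] at ha hb
    obtain ⟨v1, hv1, ha⟩ := ha
    obtain ⟨v2, hv2, hb⟩ := hb
    rw [Set.mem_singleton_iff] at hv1 hv2
    subst hv1
    subst hv2
    rw [isConj_iff] at ha hb
    obtain ⟨g, rfl⟩ := ha
    obtain ⟨h, rfl⟩ := hb
    have h1 := hc (h⁻¹ * g)
    have h2 := congrArg (fun x => g * x * g⁻¹) h1.eq
    simp only [mul_inv_rev, inv_inv] at h2
    calc g * v2 * g⁻¹ * (h * v2 * h⁻¹)
        = g * (v2 * (g⁻¹ * h * v2 * (h⁻¹ * g))) * g⁻¹ := by group
      _ = g * (g⁻¹ * h * v2 * (h⁻¹ * g) * v2) * g⁻¹ := h2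
      _ = h * v2 * h⁻¹ * (g * v2 * g⁻¹) := by group
  intro a ha b hb
  have hAc : IsMulCommutative (Subgroup.closure (Group.conjugatesOfSet ({v} : Set G))) :=
    Subgroup.isMulCommutative_closure hconj
  have := hAc.is_comm.comm (⟨a, ha⟩ : Subgroup.closure (Group.conjugatesOfSet ({v} : Set G)))
    ⟨b, hb⟩
  exact congrArg Subtype.val this

end

/-- A finitely generated torsion group generated by finitely many elements which commute with all
their conjugates is finite. -/
theorem finite_of_list (n : ℕ) : ∀ (G : Type) [Group G] (l : List G), l.length = n →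
    Group.FG G → IsMulTorsion G → (∀ v ∈ l, ∀ g : G, Commute v (g⁻¹ * v * g)) →
    Subgroup.closure {v | v ∈ l} = ⊤ → Finite G := by
  induction n with
  | zero =>
    intro G _ l hl _ _ _ hcl
    have h0 : l = [] := List.length_eq_zero_iff.1 hl
    subst h0
    have h1 : (⊤ : Subgroup G) = ⊥ := by
      rw [← hcl]
      simp
    have h2 : Subsingleton G := by
      rw [← Subgroup.subsingleton_iff]
      exact subsingleton_of_bot_eq_top h1.symm
    infer_instance
  | succ n ih =>
    intro G _ l hl hfg ht hc hcl
    obtain ⟨v, l, rfl⟩ : ∃ v l', l = v :: l' := by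
      cases l with
      | nil => simp at hl
      | cons v l => exact ⟨v, l, rfl⟩
    have hA := comm_normalClosure v (hc v (by simp))
    set A : Subgroup G := Subgroup.normalClosure {v} with hAdef
    -- the quotient is finite
    have hq : Finite (G ⧸ A) := by
      refine ih (G ⧸ A) (l.map (QuotientGroup.mk' A)) (by simpa using hl) inferInstance
        (ht.of_surjective (QuotientGroup.mk'_surjective A)) ?_ ?_
      · intro w hw g
        obtain ⟨u, hu, rfl⟩ := List.mem_map.1 hw
        obtain ⟨g, rfl⟩ := QuotientGroup.mk'_surjective A g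
        have := (hc u (by simp [hu]) g).map (QuotientGroup.mk' A)
        simpa using this
      · rw [eq_top_iff]
        have h1 : Subgroup.map (QuotientGroup.mk' A) (Subgroup.closure {w | w ∈ v :: l}) = ⊤ := by
          rw [hcl]
          exact Subgroup.map_top_of_surjective _ (QuotientGroup.mk'_surjective A)
        rw [← h1, MonoidHom.map_closure, Subgroup.closure_le]
        rintro _ ⟨w, hw, rfl⟩
        rcases List.mem_cons.1 hw with rfl | hw
        · have : QuotientGroup.mk' A w = 1 := by
            rw [QuotientGroup.mk'_apply, QuotientGroup.eq_one_iff]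
            exact Subgroup.subset_normalClosure (by simp)
          rw [this]
          exact Subgroup.one_mem _
        · exact Subgroup.subset_closure (List.mem_map.2 ⟨w, hw, rfl⟩)
    have : A.FiniteIndex := Subgroup.finiteIndex_of_finite_quotient
    have hAfg : Group.FG A := inferInstance
    have hAt : IsMulTorsion A := ht.subgroup A
    let _ : CommGroup A := { (inferInstance : Group A) with
      mul_comm := fun a b => Subtype.ext (hA a a.2 b b.2) }
    have hAfin : Finite A := CommGroup.finite_of_fg_isMulTorsion A hAt
    exact Finite.of_subgroup_quotient A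

/-- finitely generated subgroups generated by a set are generated by a finite subset -/
theorem exists_list_of_fg {G : Type} [Group G] (S : Set G) (h : (Subgroup.closure S).FG) :
    ∃ l : List G, (∀ v ∈ l, v ∈ S) ∧ Subgroup.closure {v | v ∈ l} = Subgroup.closure S := by
  classical
  have key : ∀ g ∈ Subgroup.closure S, ∃ l : List G, (∀ v ∈ l, v ∈ S) ∧
      g ∈ Subgroup.closure {v | v ∈ l} := by
    intro g hg
    induction hg using Subgroup.closure_induction with
    | mem x hx => exact ⟨[x], by simpa using hx, Subgroup.subset_closure (by simp)⟩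
    | one => exact ⟨[], by simp, Subgroup.one_mem _⟩
    | mul x y _ _ hx hy =>
      obtain ⟨l1, h1, h1'⟩ := hx
      obtain ⟨l2, h2, h2'⟩ := hy
      refine ⟨l1 ++ l2, ?_, Subgroup.mul_mem _ ?_ ?_⟩
      · intro v hv
        rcases List.mem_append.1 hv with hv | hv
        · exact h1 v hv
        · exact h2 v hv
      · exact Subgroup.closure_mono (fun v hv => List.mem_append_left _ hv) h1'
      · exact Subgroup.closure_mono (fun v hv => List.mem_append_right _ hv) h2'
    | inv x _ hx =>
      obtain ⟨l1, h1, h1'⟩ := hx
      exact ⟨l1, h1, Subgroup.inv_mem _ h1'⟩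
  obtain ⟨T, hT⟩ := h
  have hT' : ∀ g ∈ T, g ∈ Subgroup.closure S := fun g hg => by
    rw [← hT]
    exact Subgroup.subset_closure hg
  have key2 : ∀ T' : Finset G, (∀ g ∈ T', g ∈ Subgroup.closure S) →
      ∃ l : List G, (∀ v ∈ l, v ∈ S) ∧ ∀ g ∈ T', g ∈ Subgroup.closure {v | v ∈ l} := by
    intro T'
    induction T' using Finset.induction_on with
    | empty => exact fun _ => ⟨[], by simp, by simp⟩
    | insert a T' _ ih =>
      intro hTT
      obtain ⟨l1, h1, h1'⟩ := ih (fun g hg => hTT g (Finset.mem_insert_of_mem hg))
      obtain ⟨l2, h2, h2'⟩ := key a (hTT a (Finset.mem_insert_self _ _))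
      refine ⟨l1 ++ l2, ?_, ?_⟩
      · intro v hv
        rcases List.mem_append.1 hv with hv | hv
        · exact h1 v hv
        · exact h2 v hv
      · intro g hg
        rcases Finset.mem_insert.1 hg with rfl | hg
        · exact Subgroup.closure_mono (fun v hv => List.mem_append_right _ hv) h2'
        · exact Subgroup.closure_mono (fun v hv => List.mem_append_left _ hv) (h1' g hg)
  obtain ⟨l, h1, h2⟩ := key2 T hT'
  refine ⟨l, h1, le_antisymm (Subgroup.closure_mono h1) ?_⟩
  rw [← hT, Subgroup.closure_le]
  exact h2

/-- The main step: iterated commutators with conjugates. -/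
theorem finite_of_chain {k : ℕ} (W : Set (FreeGroup (Fin k)))
    (hW : ∀ (B : Type) [Group B], Group.FG B → IsMulTorsion B →
      (∀ w ∈ W, ∀ f : Fin k → B, FreeGroup.lift f w = 1) → Finite B) (j : ℕ) :
    ∀ (G : Type) [Group G], Group.FG G → IsMulTorsion G →
      (∀ w ∈ W, ∀ f : Fin k → G, ∀ ys : List G, ys.length = j →
        chain (FreeGroup.lift f w) ys = 1) → Finite G := by
  induction j with
  | zero =>
    intro G _ hfg ht hlaw
    exact hW G hfg ht (fun w hw f => hlaw w hw f [] rfl)
  | succ j ih =>
    intro G _ hfg ht hlaw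
    let S : Set G := {v | ∃ w ∈ W, ∃ (f : Fin k → G) (ys : List G), ys.length = j ∧
      v = chain (FreeGroup.lift f w) ys}
    -- values commute with their conjugates
    have hS : ∀ v ∈ S, ∀ g : G, Commute v (g⁻¹ * v * g) := by
      rintro v ⟨w, hw, f, ys, hys, rfl⟩ g
      have h := hlaw w hw f (ys ++ [g]) (by simp [hys])
      rw [chain_concat] at h
      exact commutatorElement_eq_one_iff_commute.1 h
    let N : Subgroup G := Subgroup.closure S
    have hN : N.Normal := by
      constructor
      intro a ha g
      have h1 : ∀ s ∈ S, g * s * g⁻¹ ∈ S := by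
        rintro v ⟨w, hw, f, ys, hys, rfl⟩
        refine ⟨w, hw, fun i => g * f i * g⁻¹, ys.map (MulAut.conj g).toMonoidHom, by simp [hys],
          ?_⟩
        have h2 := map_chain (MulAut.conj g).toMonoidHom (FreeGroup.lift f w) ys
        have h3 : (MulAut.conj g).toMonoidHom (FreeGroup.lift f w) =
            FreeGroup.lift (fun i => g * f i * g⁻¹) w := by
          have h4 : ((MulAut.conj g).toMonoidHom).comp (FreeGroup.lift f) =
              FreeGroup.lift (fun i => g * f i * g⁻¹) := by
            ext i
            simp
          exact DFunLike.congr_fun h4 w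
        rw [h3] at h2
        rw [← h2]
        simp
      induction ha using Subgroup.closure_induction with
      | mem x hx => exact Subgroup.subset_closure (h1 x hx)
      | one => simp [N.one_mem]
      | mul x y _ _ hx hy =>
        have : g * (x * y) * g⁻¹ = (g * x * g⁻¹) * (g * y * g⁻¹) := by group
        rw [this]
        exact N.mul_mem hx hy
      | inv x _ hx =>
        have : g * x⁻¹ * g⁻¹ = (g * x * g⁻¹)⁻¹ := by group
        rw [this]
        exact N.inv_mem hx
    have hq : Finite (G ⧸ N) := by
      refine ih (G ⧸ N) inferInstance (ht.of_surjective (QuotientGroup.mk'_surjective N)) ?_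
      intro w hw f ys hys
      -- lift the data
      obtain ⟨f', hf'⟩ : ∃ f' : Fin k → G, ∀ i, QuotientGroup.mk' N (f' i) = f i :=
        ⟨fun i => (QuotientGroup.mk'_surjective N (f i)).choose,
          fun i => (QuotientGroup.mk'_surjective N (f i)).choose_spec⟩
      obtain ⟨ys', hys'⟩ : ∃ ys' : List G, ys'.map (QuotientGroup.mk' N) = ys := by
        have := List.map_surjective_iff.2 (QuotientGroup.mk'_surjective N)
        exact this ys
      have h1 := map_chain (QuotientGroup.mk' N) (FreeGroup.lift f' w) ys'
      have h3 : QuotientGroup.mk' N (FreeGroup.lift f' w) = FreeGroup.lift f w := by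
        have h4 : (QuotientGroup.mk' N).comp (FreeGroup.lift f') = FreeGroup.lift f := by
          ext i
          simpa using hf' i
        exact DFunLike.congr_fun h4 w
      rw [h3, hys'] at h1
      rw [← h1, QuotientGroup.mk'_apply, QuotientGroup.eq_one_iff]
      refine Subgroup.subset_closure ⟨w, hw, f', ys', ?_, rfl⟩
      rw [← hys, ← hys', List.length_map]
    have : N.FiniteIndex := Subgroup.finiteIndex_of_finite_quotient
    have hNfg : Group.FG N := inferInstance
    have hNt : IsMulTorsion N := ht.subgroup N
    obtain ⟨l, hl1, hl2⟩ := exists_list_of_fg S ((Group.fg_iff_subgroup_fg N).1 hNfg)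
    -- pass to the type `N`
    have hmem : ∀ v ∈ l, v ∈ N := fun v hv => Subgroup.subset_closure (hl1 v hv)
    have hNfin : Finite N := by
      refine finite_of_list _ N (l.attach.map fun v => ⟨v.1, hmem v.1 v.2⟩) rfl hNfg hNt ?_ ?_
      · intro v hv g
        obtain ⟨u, _, rfl⟩ := List.mem_map.1 hv
        have h1 := hS u.1 (hl1 u.1 u.2) g
        exact Subtype.ext h1.eq
      · have h1 : Subgroup.map N.subtype (Subgroup.closure
            {v | v ∈ l.attach.map fun v => (⟨v.1, hmem v.1 v.2⟩ : N)}) =
            Subgroup.map N.subtype ⊤ := by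
          rw [MonoidHom.map_closure, ← MonoidHom.range_eq_map, Subgroup.range_subtype]
          change _ = Subgroup.closure S
          rw [← hl2]
          congr 1
          ext v
          constructor
          · rintro ⟨u, hu, rfl⟩
            obtain ⟨t, _, rfl⟩ := List.mem_map.1 hu
            exact t.2
          · intro hv
            exact ⟨⟨v, hmem v hv⟩, List.mem_map.2 ⟨⟨v, hv⟩, List.mem_attach _ _, rfl⟩, rfl⟩
        exact Subgroup.map_injective N.subtype_injective h1
    exact Finite.of_subgroup_quotient N

end Pool.Agent.DChain
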