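import Pool.Agent.DChain.Princ
import Pool.Agent.DChain.Detect

/-!
# Varieties whose `d`-generated members are finite and soluble modulo a locally finite variety
-/

set_option autoImplicit false

namespace Pool.Agent.DChain

open Subgroup
open scoped commutatorElement

theorem Obeys.of_surjective {L : Set (FreeGroup ℕ)} {G G' : Type} [Group G] [Group G']
    (h : Obeys L G) (φ : G →* G') (hφ : Function.Surjective φ) : Obeys L G' := by
  intro w hw f
  obtain ⟨f', hf'⟩ : ∃ f' : ℕ → G, ∀ i, φ (f' i) = f i :=
    ⟨fun i => (hφ (f i)).choose, fun i => (hφ (f i)).choose_spec⟩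
  have h1 : φ.comp (FreeGroup.lift f') = FreeGroup.lift f := by
    ext i
    simpa using hf' i
  have h2 : φ (FreeGroup.lift f' w) = FreeGroup.lift f w := DFunLike.congr_fun h1 w
  rw [← h2, h w hw, map_one]

/-- the residuals decrease -/
theorem F_eq_bot {G : Type} [Group G] {k : ℕ} (V : Set (FreeGroup (Fin k))) {e : ℕ} (he : 1 ≤ e)
    (X : Subgroup G) [Finite X] (hs : Group.IsSolvable (vb V X)) (hcard : Nat.card X ≤ e) :
    F V e e X = ⊥ := by
  have hle : ∀ i, F V e i X ≤ X := fun i => F_le V e i X
  have hfin : ∀ i, Finite (F V e i X) := fun i => Finite.Set.subset (X : Set G) (hle i)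
  have key : ∀ i, F V e i X = ⊥ ∨ Nat.card (F V e i X) + i ≤ Nat.card X := by
    intro i
    induction i with
    | zero =>
      right
      have h1 := Subgroup.card_le_of_le (hle 0)
      simpa using h1
    | succ i ih =>
      rcases ih with ih | ih
      · left
        exact eq_bot_iff.2 ((F_succ_le V e i X).trans (eq_bot_iff.1 ih))
      · by_cases hb : F V e i X = ⊥
        · left
          exact eq_bot_iff.2 ((F_succ_le V e i X).trans (eq_bot_iff.1 hb))
        · right
          have hlt : F V e (i + 1) X < F V e i X := by
            refine lt_of_le_of_ne (F_succ_le V e i X) ?_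
            intro heq
            set S := F V e i X with hS
            have h1 : S ≤ ⁅S, S⁆ := by
              have h2 : S.lowerCentralSeries e ≤ S.lowerCentralSeries 1 :=
                Subgroup.lowerCentralSeries_antitone S he
              have h3 : S.lowerCentralSeries 1 = ⁅S, S⁆ := by
                rw [Subgroup.lowerCentralSeries_succ, Subgroup.lowerCentralSeries_zero]
              rw [← h3]
              calc S = S.lowerCentralSeries e := heq.symm
                _ ≤ _ := h2
            have hsS : Group.IsSolvable S := solvable_of_le (F_le_vb V e i X) hs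
            have h4 : ∀ k, S ≤ (derivedSeries S k).map S.subtype := by
              intro k
              induction k with
              | zero =>
                intro x hx
                exact ⟨⟨x, hx⟩, Subgroup.mem_top _, rfl⟩
              | succ k ihk =>
                rw [derivedSeries_succ, Subgroup.map_commutator]
                exact h1.trans (Subgroup.commutator_mono ihk ihk)
            obtain ⟨k, hk⟩ := hsS.solvable
            have h5 := h4 k
            rw [hk, Subgroup.map_bot] at h5
            exact hb (eq_bot_iff.2 h5)
          have h1 : Nat.card (F V e (i + 1) X) < Nat.card (F V e i X) :=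
            Set.Finite.card_lt_card (hfin i) (SetLike.coe_ssubset_coe.2 hlt)
          omega
  rcases key e with h | h
  · exact h
  · have := hfin e
    have : 0 < Nat.card (F V e e X) := Nat.card_pos
    omega

/-- from a subgroup to the group -/
theorem F_top_map {G : Type} [Group G] {k : ℕ} (V : Set (FreeGroup (Fin k))) (e j : ℕ)
    (H : Subgroup G) : (F V e j (⊤ : Subgroup H)).map H.subtype = F V e j H := by
  rw [F_map, ← MonoidHom.range_eq_map, Subgroup.range_subtype]

section

variable {d k : ℕ} (hd : 2 ≤ d) (hk : k + 1 ≤ d) (V : Set (FreeGroup (Fin k)))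
  (L : Set (FreeGroup ℕ)) (hL : FiniteGen d L)
  (hbase : ∀ (B : Type) [Group B], Obeys L B → Group.FG B →
    (∀ w ∈ V, ∀ f : Fin k → B, FreeGroup.lift f w = 1) → Finite B)
  (hsol : ∀ (H : Type) [Group H], Obeys L H → Gen d H →
    Group.IsSolvable (vb V (⊤ : Subgroup H)))
  (h1 : ∀ (H : Type) [Group H], Obeys L H → Gen d H →
    Group.IsNilpotent (vb V (⊤ : Subgroup H)) →
    (∀ w ∈ V, ∀ f : Fin k → H,
      derivedSeries (Subgroup.normalClosure {FreeGroup.lift f w}) (d - k) = ⊥) ∨
    (⊤ : Subgroup H).lowerCentralSeries (2 ^ (d - k + 1) - 2) = ⊥)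
  (h2 : ∀ (H : Type) [Group H], Obeys L H → Gen d H →
    ¬ Group.IsNilpotent (vb V (⊤ : Subgroup H)) → ∀ N : Subgroup H, N.Normal →
    N ≤ ⁅vb V (⊤ : Subgroup H), vb V (⊤ : Subgroup H)⁆ → Group.IsNilpotent N →
    derivedSeries N (d - max 2 (k + 1)) = ⊥)

include hd hk hL hbase hsol h1 h2

/-- The main theorem. -/
theorem locFin_of_soluble : LocFin L := by
  obtain ⟨K, hKdef⟩ : ∃ K, K = max 2 (k + 1) := ⟨_, rfl⟩
  have hK2 : 2 ≤ K := hKdef ▸ le_max_left _ _
  have hkK : k + 1 ≤ K := hKdef ▸ le_max_right _ _
  have hKd : K ≤ d := hKdef ▸ max_le hd hk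
  rw [← hKdef] at h2
  obtain ⟨e, he, hbd⟩ := exists_bound hL
  -- subgroups with few generators
  have hsub : ∀ (G : Type) [Group G], Obeys L G → ∀ l : List G, l.length ≤ d →
      Obeys L (Subgroup.closure {v | v ∈ l}) ∧ Gen d (Subgroup.closure {v | v ∈ l}) :=
    fun G _ hG l hl => ⟨hG.subgroup _, gen_closure l hl⟩
  -- detection
  have hdet : ∀ (G : Type) [Group G], Obeys L G → ∀ l : List G, l.length ≤ d → ∀ j : ℕ,
      (∀ g : Fin K → G, F V e j (Subgroup.closure (Set.range g)) = ⊥) →
      F V e j (⊤ : Subgroup (Subgroup.closure {v | v ∈ l})) = ⊥ := by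
    intro G _ hG l hl j hj
    obtain ⟨ho, hg⟩ := hsub G hG l hl
    have hfin : Finite (Subgroup.closure {v | v ∈ l}) := hL _ ho hg
    apply detect hkK hK2 V _ (hsol _ ho hg) (hbd _ ho hg)
    intro g
    apply Subgroup.map_injective (Subgroup.closure {v | v ∈ l}).subtype_injective
    rw [F_map, map_range, Subgroup.map_bot]
    exact hj _
  have main : ∀ j : ℕ, ∀ (G : Type) [Group G], Obeys L G → Group.FG G →
      (∀ g : Fin K → G, F V e j (Subgroup.closure (Set.range g)) = ⊥) → Finite G := by
    intro j
    induction j with
    | zero =>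
      intro G _ hG hfg h
      apply hbase G hG hfg
      intro w hw f
      obtain ⟨g, hg⟩ := exists_fun (K := K) (List.ofFn f) (by rw [List.length_ofFn]; omega)
      have h3 : FreeGroup.lift f w ∈ F V e 0 (Subgroup.closure (Set.range g)) := by
        rw [hg]
        exact mem_vb V hw fun i => Subgroup.subset_closure (by simp)
      rw [h g] at h3
      exact h3
    | succ j ih =>
      rcases Nat.eq_zero_or_pos j with rfl | hj
      · -- `j = 1`
        intro G _ hG hfg h
        refine finite_of_chain'
          (fun G _ => Obeys L G ∧ ∀ g : Fin K → G, F V e 1 (Subgroup.closure (Set.range g)) = ⊥)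
          ?_ (fun G _ => {z | ∃ w ∈ V, ∃ f : Fin k → G, z = FreeGroup.lift f w}) ?_ ?_ ?_ (d - k)
          G ⟨hG, h⟩ hfg (torsion_of_finiteGen (by omega) hL hG) ?_
        · rintro G G' _ _ φ hφ ⟨ho, hF⟩
          refine ⟨ho.of_surjective φ hφ, fun g => ?_⟩
          obtain ⟨g', hg'⟩ : ∃ g' : Fin K → G, ∀ i, φ (g' i) = g i :=
            ⟨fun i => (hφ (g i)).choose, fun i => (hφ (g i)).choose_spec⟩
          have h3 : (Subgroup.closure (Set.range g')).map φ = Subgroup.closure (Set.range g) := by
            rw [map_range]
            congr 2
            exact funext hg'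
          rw [← h3, ← F_map, hF g', Subgroup.map_bot]
        · rintro G G' _ _ φ hφ z ⟨w, hw, f, rfl⟩
          obtain ⟨f', hf'⟩ : ∃ f' : Fin k → G, ∀ i, φ (f' i) = f i :=
            ⟨fun i => (hφ (f i)).choose, fun i => (hφ (f i)).choose_spec⟩
          refine ⟨FreeGroup.lift f' w, ⟨w, hw, f', rfl⟩, ?_⟩
          rw [map_lift]
          congr 2
          exact funext hf'
        · rintro G _ z g ⟨w, hw, f, rfl⟩
          exact ⟨w, hw, _, conj_lift g f w⟩
        · rintro G _ ⟨ho, _⟩ hfg _ hz
          exact hbase G ho hfg fun w hw f => hz _ ⟨w, hw, f, rfl⟩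
        · rintro z ⟨w, hw, f, rfl⟩ ys hys
          let l : List G := List.ofFn f ++ ys
          have hl : l.length ≤ d := by
            simp only [l, List.length_append, List.length_ofFn]
            omega
          obtain ⟨ho, hg⟩ := hsub G hG l hl
          have hfin : Finite (Subgroup.closure {v | v ∈ l}) := hL _ ho hg
          have hcard := hbd _ ho hg
          have hF := hdet G hG l hl 1 h
          set H : Subgroup G := Subgroup.closure {v | v ∈ l} with hH
          have hnil : Group.IsNilpotent (vb V (⊤ : Subgroup H)) := nil_of_lcs hF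
          have hf : ∀ i, f i ∈ H := fun i =>
            Subgroup.subset_closure (List.mem_append_left _ (by simp))
          have hy : ∀ y ∈ ys, y ∈ H := fun y hy =>
            Subgroup.subset_closure (List.mem_append_right _ hy)
          obtain ⟨ys', hys'⟩ := exists_lift_list H ys hy
          have hlen : ys'.length = d - k := by rw [← hys, ← hys', List.length_map]
          have h3 : chain (FreeGroup.lift (fun i => (⟨f i, hf i⟩ : H)) w) ys' = 1 := by
            rcases h1 H ho hg hnil with h4 | h4
            · have h5 := chain_mem_derived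
                (Subgroup.normalClosure {FreeGroup.lift (fun i => (⟨f i, hf i⟩ : H)) w})
                (Subgroup.subset_normalClosure (Set.mem_singleton _)) ys'
              rw [hlen, h4 w hw _, Subgroup.map_bot, Subgroup.mem_bot] at h5
              exact h5
            · have h5 := chain_mem_lcs (FreeGroup.lift (fun i => (⟨f i, hf i⟩ : H)) w) ys'
              rw [hlen, h4, Subgroup.mem_bot] at h5
              exact h5
          have h4 := map_chain H.subtype (FreeGroup.lift (fun i => (⟨f i, hf i⟩ : H)) w) ys'
          rw [h3, map_one, map_lift, hys'] at h4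
          exact h4.symm
      · -- `j ≥ 2`
        intro G _ hG hfg h
        refine finite_of_chain'
          (fun G _ => Obeys L G ∧
            ∀ g : Fin K → G, F V e (j + 1) (Subgroup.closure (Set.range g)) = ⊥)
          ?_ (fun G _ => {z | ∃ g : Fin K → G, z ∈ F V e j (Subgroup.closure (Set.range g))})
          ?_ ?_ ?_ (d - K)
          G ⟨hG, h⟩ hfg (torsion_of_finiteGen (by omega) hL hG) ?_
        · rintro G G' _ _ φ hφ ⟨ho, hF⟩
          refine ⟨ho.of_surjective φ hφ, fun g => ?_⟩
          obtain ⟨g', hg'⟩ : ∃ g' : Fin K → G, ∀ i, φ (g' i) = g i :=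
            ⟨fun i => (hφ (g i)).choose, fun i => (hφ (g i)).choose_spec⟩
          have h3 : (Subgroup.closure (Set.range g')).map φ = Subgroup.closure (Set.range g) := by
            rw [map_range]
            congr 2
            exact funext hg'
          rw [← h3, ← F_map, hF g', Subgroup.map_bot]
        · rintro G G' _ _ φ hφ z ⟨g, hz⟩
          obtain ⟨g', hg'⟩ : ∃ g' : Fin K → G, ∀ i, φ (g' i) = g i :=
            ⟨fun i => (hφ (g i)).choose, fun i => (hφ (g i)).choose_spec⟩
          have h3 : (Subgroup.closure (Set.range g')).map φ = Subgroup.closure (Set.range g) := by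
            rw [map_range]
            congr 2
            exact funext hg'
          rw [← h3, ← F_map] at hz
          obtain ⟨z', hz', rfl⟩ := hz
          exact ⟨z', ⟨g', hz'⟩, rfl⟩
        · rintro G _ z x ⟨g, hz⟩
          refine ⟨fun i => x * g i * x⁻¹, ?_⟩
          have h3 : (Subgroup.closure (Set.range g)).map (MulAut.conj x).toMonoidHom =
              Subgroup.closure (Set.range fun i => x * g i * x⁻¹) := map_range _ g
          rw [← h3, ← F_map]
          exact ⟨z, hz, rfl⟩
        · rintro G _ ⟨ho, _⟩ hfg _ hz
          refine ih G ho hfg fun g => ?_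
          rw [eq_bot_iff]
          intro z hz'
          exact hz z ⟨g, hz'⟩
        · rintro z ⟨g, hz⟩ ys hys
          let l : List G := List.ofFn g ++ ys
          have hl : l.length ≤ d := by
            simp only [l, List.length_append, List.length_ofFn]
            omega
          obtain ⟨ho, hgen⟩ := hsub G hG l hl
          have hfin : Finite (Subgroup.closure {v | v ∈ l}) := hL _ ho hgen
          have hcard := hbd _ ho hgen
          have hF := hdet G hG l hl (j + 1) h
          set H : Subgroup G := Subgroup.closure {v | v ∈ l} with hH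
          have hg : ∀ i, g i ∈ H := fun i =>
            Subgroup.subset_closure (List.mem_append_left _ (by simp))
          have hy : ∀ y ∈ ys, y ∈ H := fun y hy =>
            Subgroup.subset_closure (List.mem_append_right _ hy)
          obtain ⟨ys', hys'⟩ := exists_lift_list H ys hy
          have hlen : ys'.length = d - K := by rw [← hys, ← hys', List.length_map]
          -- `z` as an element of `T`
          have hzH : z ∈ F V e j H := by
            refine F_mono V e j ?_ hz
            rw [Subgroup.closure_le]
            rintro _ ⟨i, rfl⟩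
            exact hg i
          rw [← F_top_map] at hzH
          obtain ⟨z', hz', rfl⟩ := hzH
          set T : Subgroup H := F V e j ⊤ with hT
          have hTn : T.Normal := F_normal V e j ⊤
          have hTnil : Group.IsNilpotent T := nil_of_lcs hF
          have hT1 : T ≤ F V e 1 (⊤ : Subgroup H) := by
            obtain ⟨i, rfl⟩ : ∃ i, j = i + 1 := ⟨j - 1, by omega⟩
            have : ∀ i, F V e (i + 1) (⊤ : Subgroup H) ≤ F V e 1 (⊤ : Subgroup H) := by
              intro i
              induction i with
              | zero => exact le_rfl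
              | succ i ih => exact (F_succ_le V e (i + 1) ⊤).trans ih
            exact this i
          have h3 : derivedSeries T (d - K) = ⊥ := by
            by_cases hnil : Group.IsNilpotent (vb V (⊤ : Subgroup H))
            · have h4 : F V e 1 (⊤ : Subgroup H) = ⊥ :=
                lcs_of_nil hnil ((Subgroup.card_le_card_group _).trans hcard)
              have h5 : T = ⊥ := eq_bot_iff.2 (h4 ▸ hT1)
              have h6 : Subsingleton T := by
                rw [h5]
                infer_instance
              exact Subsingleton.elim _ _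
            · refine h2 H ho hgen hnil T hTn (hT1.trans ?_) hTnil
              have h4 : (vb V (⊤ : Subgroup H)).lowerCentralSeries e ≤
                  (vb V (⊤ : Subgroup H)).lowerCentralSeries 1 :=
                Subgroup.lowerCentralSeries_antitone _ he
              have h5 : (vb V (⊤ : Subgroup H)).lowerCentralSeries 1 =
                  ⁅vb V (⊤ : Subgroup H), vb V (⊤ : Subgroup H)⁆ := by
                rw [Subgroup.lowerCentralSeries_succ, Subgroup.lowerCentralSeries_zero]
              rw [← h5]
              exact h4
          have h4 := chain_mem_derived T hz' ys'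
          rw [hlen, h3, Subgroup.map_bot, Subgroup.mem_bot] at h4
          have h5 := map_chain H.subtype z' ys'
          rw [h4, map_one, hys'] at h5
          exact h5.symm
  intro G _ hG hfg
  refine main e G hG hfg fun g => ?_
  obtain ⟨l, hl, hle⟩ : ∃ l : List G, l.length ≤ d ∧
      Subgroup.closure {v | v ∈ l} = Subgroup.closure (Set.range g) := by
    refine ⟨List.ofFn g, by rw [List.length_ofFn]; exact hKd, ?_⟩
    congr 1
    ext v
    simp [List.mem_ofFn]
  obtain ⟨ho, hgen⟩ := hsub G hG l hl
  have hfin : Finite (Subgroup.closure {v | v ∈ l}) := hL _ ho hgen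
  have hcard := hbd _ ho hgen
  have hs := hsol _ ho hgen
  rw [← hle]
  refine F_eq_bot V he _ ?_ hcard
  have h3 : (vb V (⊤ : Subgroup (Subgroup.closure {v | v ∈ l}))).map
      (Subgroup.closure {v | v ∈ l}).subtype = vb V (Subgroup.closure {v | v ∈ l}) := by
    rw [vb_map, ← MonoidHom.range_eq_map, Subgroup.range_subtype]
  rw [← h3]
  exact Group.isSolvable_of_surjective
    ((Subgroup.closure {v | v ∈ l}).subtype.subgroupMap_surjective
      (vb V (⊤ : Subgroup (Subgroup.closure {v | v ∈ l}))))

end

end Pool.Agent.DChain
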