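import Pool.Agent.DChain.Gen

/-!
# Minimal normal subgroups of a finite group below a soluble normal subgroup
-/

set_option autoImplicit false

namespace Pool.Agent.DChain

open Subgroup
open scoped commutatorElement

section

variable {Y : Type} [Group Y]

/-- a minimal normal subgroup below `T` -/
theorem exists_minimal [Finite Y] (T : Subgroup Y) (hTn : T.Normal) (hT : T ≠ ⊥) :
    ∃ N : Subgroup Y, N ≤ T ∧ N.Normal ∧ N ≠ ⊥ ∧
    ∀ M : Subgroup Y, M.Normal → M ≠ ⊥ → M ≤ N → M = N := by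
  classical
  let P : Set (Subgroup Y) := {M | M.Normal ∧ M ≠ ⊥ ∧ M ≤ T}
  have hfin : P.Finite := Set.toFinite P
  have hne : P.Nonempty := ⟨T, hTn, hT, le_rfl⟩
  obtain ⟨N, hN⟩ := hfin.exists_minimal hne
  refine ⟨N, hN.prop.2.2, hN.prop.1, hN.prop.2.1, fun M h1 h2 h3 => ?_⟩
  exact le_antisymm h3 (hN.le_of_le ⟨h1, h2, h3.trans hN.prop.2.2⟩ h3)

theorem comm_of_minimal {N : Subgroup Y} (hs : Group.IsSolvable N) (hn : N.Normal)
    (hb : N ≠ ⊥) (hmin : ∀ M : Subgroup Y, M.Normal → M ≠ ⊥ → M ≤ N → M = N) :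
    ∀ x ∈ N, ∀ y ∈ N, x * y = y * x := by
  have h1 : ⁅N, N⁆ = ⊥ := by
    by_contra h
    have h2 : ⁅N, N⁆ = N := hmin _ inferInstance h (Subgroup.commutator_le_left N N)
    have h3 : ∀ k, N ≤ (derivedSeries N k).map N.subtype := by
      intro k
      induction k with
      | zero =>
        intro x hx
        exact ⟨⟨x, hx⟩, Subgroup.mem_top _, rfl⟩
      | succ k ih =>
        rw [derivedSeries_succ, Subgroup.map_commutator]
        calc N = ⁅N, N⁆ := h2.symm
          _ ≤ _ := Subgroup.commutator_mono ih ih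
    obtain ⟨k, hk⟩ := hs.solvable
    apply hb
    have h4 := h3 k
    rw [hk, Subgroup.map_bot] at h4
    exact eq_bot_iff.2 h4
  intro x hx y hy
  have h2 : ⁅x, y⁆ ∈ ⁅N, N⁆ := Subgroup.commutator_mem_commutator hx hy
  rw [h1, Subgroup.mem_bot, commutatorElement_eq_one_iff_mul_comm] at h2
  exact h2

theorem exp_of_minimal [Finite Y] {N : Subgroup Y} (hs : Group.IsSolvable N) (hn : N.Normal)
    (hb : N ≠ ⊥) (hmin : ∀ M : Subgroup Y, M.Normal → M ≠ ⊥ → M ≤ N → M = N) :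
    ∃ q : ℕ, q.Prime ∧ ∀ x ∈ N, x ^ q = 1 := by
  have hc := comm_of_minimal hs hn hb hmin
  have hcard : Nat.card N ≠ 1 := by
    intro h
    exact hb (Subgroup.card_eq_one.1 h)
  obtain ⟨q, hq, hqd⟩ := Nat.exists_prime_and_dvd hcard
  refine ⟨q, hq, ?_⟩
  have := Fact.mk hq
  obtain ⟨x, hx⟩ := exists_prime_orderOf_dvd_card' (G := N) q hqd
  let M : Subgroup Y :=
    { carrier := {x | x ∈ N ∧ x ^ q = 1}
      one_mem' := ⟨N.one_mem, one_pow q⟩
      mul_mem' := by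
        rintro a b ⟨ha, ha1⟩ ⟨hb, hb1⟩
        refine ⟨N.mul_mem ha hb, ?_⟩
        have h1 : Commute a b := hc a ha b hb
        rw [h1.mul_pow, ha1, hb1, one_mul]
      inv_mem' := by
        rintro a ⟨ha, ha1⟩
        refine ⟨N.inv_mem ha, ?_⟩
        rw [inv_pow, ha1, inv_one] }
  have hM : ∀ y, y ∈ M ↔ y ∈ N ∧ y ^ q = 1 := fun y => Iff.rfl
  have hMn : M.Normal := by
    constructor
    rintro y ⟨hy, hy1⟩ g
    refine ⟨hn.conj_mem y hy g, ?_⟩
    rw [conj_pow, hy1]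
    group
  have hMb : M ≠ ⊥ := by
    intro h
    have h1 : (x : Y) ∈ M := by
      rw [hM]
      refine ⟨x.2, ?_⟩
      have h2 : x ^ q = 1 := by rw [← hx]; exact pow_orderOf_eq_one x
      exact congrArg Subtype.val h2
    rw [h, Subgroup.mem_bot] at h1
    have h2 : x = 1 := Subtype.ext h1
    rw [h2, orderOf_one] at hx
    exact hq.one_lt.ne hx
  have hMN : M = N := hmin M hMn hMb (fun y hy => ((hM y).1 hy).1)
  intro y hy
  rw [← hMN] at hy
  exact ((hM y).1 hy).2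

/-- subgroups of soluble subgroups are soluble -/
theorem solvable_of_le {A B : Subgroup Y} (h : A ≤ B) (hB : Group.IsSolvable B) :
    Group.IsSolvable A :=
  Group.isSolvable_of_isSolvable_injective (Subgroup.inclusion_injective h)

/-- the inductive set-up -/
theorem exists_ctx [Finite Y] {r : ℕ} (T : Subgroup Y) (hTn : T.Normal)
    (hs : Group.IsSolvable T)
    (hq : ∀ M : Subgroup Y, M.Normal → M ≠ ⊥ → ∀ x ∈ T, ∃ k : ℕ, x ^ r ^ k ∈ M)
    (hT : ¬ PG r T) : ∃ (N : Subgroup Y) (q : ℕ), Ctx N q ∧ q ≠ r ∧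
      ∀ x ∈ T, ∃ k : ℕ, x ^ r ^ k ∈ N := by
  have hTb : T ≠ ⊥ := by
    intro h
    apply hT
    intro x hx
    rw [h, Subgroup.mem_bot] at hx
    exact ⟨0, by rw [hx, one_pow]⟩
  obtain ⟨N, hNT, hn, hb, hmin⟩ := exists_minimal T hTn hTb
  have hsN := solvable_of_le hNT hs
  obtain ⟨q, hqp, hexp⟩ := exp_of_minimal hsN hn hb hmin
  refine ⟨N, q, ⟨hn, hb, hqp, hexp, comm_of_minimal hsN hn hb hmin, ?_⟩, ?_, hq N hn hb⟩
  · intro M hM hMb
    by_contra hNM
    apply hT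
    have h1 : N ⊓ M = ⊥ := by
      by_contra h2
      have h3 := hmin (N ⊓ M) inferInstance h2 inf_le_left
      exact hNM (h3 ▸ inf_le_right)
    intro x hx
    obtain ⟨k, hk⟩ := hq N hn hb x hx
    obtain ⟨l, hl⟩ := hq M hM hMb x hx
    refine ⟨k + l, ?_⟩
    have h2 : x ^ r ^ (k + l) ∈ N ⊓ M := by
      refine ⟨?_, ?_⟩
      · rw [pow_add, pow_mul]
        exact N.pow_mem hk _
      · rw [add_comm, pow_add, pow_mul]
        exact M.pow_mem hl _
    rw [h1] at h2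
    exact h2
  · rintro rfl
    apply hT
    intro x hx
    obtain ⟨k, hk⟩ := hq N hn hb x hx
    refine ⟨k + 1, ?_⟩
    rw [pow_succ, pow_mul]
    exact hexp _ hk

end

end Pool.Agent.DChain
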