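import Pool.Agent.DChain.Main

/-!
# Varieties with finite `d`-generated members of small derived length or class
-/

set_option autoImplicit false

namespace Pool.Agent.DChain

open Subgroup

/-- The main theorem. -/
theorem locFin_of_derived {d k j : ℕ} (hd : 1 ≤ d) (hkj : k + j ≤ d)
    (W : Set (FreeGroup (Fin k))) (L : Set (FreeGroup ℕ)) (hW : Good L W) (hL : FiniteGen d L)
    (hs : ∀ (H : Type) [Group H], Obeys L H → Gen d H →
      (∀ w ∈ W, ∀ f : Fin k → H,
        derivedSeries (Subgroup.normalClosure {FreeGroup.lift f w}) j = ⊥) ∨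
      (⊤ : Subgroup H).lowerCentralSeries (2 ^ (j + 1) - 2) = ⊥) : LocFin L := by
  intro G _ hG hfg
  refine finite_of_chain' (fun G _ => Obeys L G)
    (fun G G' _ _ φ hφ h => h.of_surjective φ hφ)
    (fun G _ => {z | ∃ w ∈ W, ∃ f : Fin k → G, z = FreeGroup.lift f w}) ?_ ?_ ?_ j
    G hG hfg (torsion_of_finiteGen hd hL hG) ?_
  · rintro G G' _ _ φ hφ z ⟨w, hw, f, rfl⟩
    obtain ⟨f', hf'⟩ : ∃ f' : Fin k → G, ∀ i, φ (f' i) = f i :=
      ⟨fun i => (hφ (f i)).choose, fun i => (hφ (f i)).choose_spec⟩
    refine ⟨FreeGroup.lift f' w, ⟨w, hw, f', rfl⟩, ?_⟩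
    rw [map_lift]
    congr 2
    exact funext hf'
  · rintro G _ z g ⟨w, hw, f, rfl⟩
    exact ⟨w, hw, _, conj_lift g f w⟩
  · intro B _ hB hfg _ hz
    exact hW.finite B hB hfg fun w hw f => hz _ ⟨w, hw, f, rfl⟩
  · rintro z ⟨w, hw, f, rfl⟩ ys hys
    let l : List G := List.ofFn f ++ ys
    have hl : l.length ≤ d := by
      simp only [l, List.length_append, List.length_ofFn]
      omega
    have ho : Obeys L (Subgroup.closure {v | v ∈ l}) := hG.subgroup _
    have hg : Gen d (Subgroup.closure {v | v ∈ l}) := gen_closure l hl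
    set H : Subgroup G := Subgroup.closure {v | v ∈ l} with hH
    have hf : ∀ i, f i ∈ H := fun i =>
      Subgroup.subset_closure (List.mem_append_left _ (by simp))
    have hy : ∀ y ∈ ys, y ∈ H := fun y hy =>
      Subgroup.subset_closure (List.mem_append_right _ hy)
    obtain ⟨ys', hys'⟩ := exists_lift_list H ys hy
    have hlen : ys'.length = j := by rw [← hys, ← hys', List.length_map]
    have h3 : chain (FreeGroup.lift (fun i => (⟨f i, hf i⟩ : H)) w) ys' = 1 := by
      rcases hs H ho hg with h4 | h4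
      · have h5 := chain_mem_derived
          (Subgroup.normalClosure {FreeGroup.lift (fun i => (⟨f i, hf i⟩ : H)) w})
          (Subgroup.subset_normalClosure (Set.mem_singleton _)) ys'
        rw [hlen, h4 w hw _, Subgroup.map_bot, Subgroup.mem_bot] at h5
        exact h5
      · have h5 := chain_mem_lcs (FreeGroup.lift (fun i => (⟨f i, hf i⟩ : H)) w) ys'
        rw [hlen, h4, Subgroup.mem_bot] at h5
        exact h5
    have h4 := map_chain H.subtype (FreeGroup.lift (fun i => (⟨f i, hf i⟩ : H)) w) ys'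
    rw [h3, map_one, map_lift, hys'] at h4
    exact h4.symm

end Pool.Agent.DChain
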