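import Pool.Agent.DChain.Final

/-!
# The principle for functorial normal sets
-/

set_option autoImplicit false

namespace Pool.Agent.DChain

open Subgroup
open scoped commutatorElement

/-- the general principle -/
theorem finite_of_chain' (C : (G : Type) → [Group G] → Prop)
    (hC : ∀ (G G' : Type) [Group G] [Group G'] (φ : G →* G'), Function.Surjective φ → C G → C G')
    (S : (G : Type) → [Group G] → Set G)
    (hS : ∀ (G G' : Type) [Group G] [Group G'] (φ : G →* G'), Function.Surjective φ →
      S G' ⊆ φ '' S G)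
    (hconj : ∀ (G : Type) [Group G] (z g : G), z ∈ S G → g * z * g⁻¹ ∈ S G)
    (hbase : ∀ (G : Type) [Group G], C G → Group.FG G → IsMulTorsion G →
      (∀ z ∈ S G, z = 1) → Finite G) (j : ℕ) :
    ∀ (G : Type) [Group G], C G → Group.FG G → IsMulTorsion G →
      (∀ z ∈ S G, ∀ ys : List G, ys.length = j → chain z ys = 1) → Finite G := by
  induction j with
  | zero =>
    intro G _ hCG hfg ht hlaw
    exact hbase G hCG hfg ht (fun z hz => hlaw z hz [] rfl)
  | succ j ih =>
    intro G _ hCG hfg ht hlaw
    let T : Set G := {v | ∃ z ∈ S G, ∃ ys : List G, ys.length = j ∧ v = chain z ys}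
    have hT : ∀ v ∈ T, ∀ g : G, Commute v (g⁻¹ * v * g) := by
      rintro v ⟨z, hz, ys, hys, rfl⟩ g
      have h := hlaw z hz (ys ++ [g]) (by simp [hys])
      rw [chain_concat] at h
      exact commutatorElement_eq_one_iff_commute.1 h
    let N : Subgroup G := Subgroup.closure T
    have hN : N.Normal := by
      constructor
      intro a ha g
      have h1 : ∀ s ∈ T, g * s * g⁻¹ ∈ T := by
        rintro v ⟨z, hz, ys, hys, rfl⟩
        refine ⟨g * z * g⁻¹, hconj G z g hz, ys.map (MulAut.conj g).toMonoidHom, by simp [hys], ?_⟩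
        have h2 := map_chain (MulAut.conj g).toMonoidHom z ys
        simpa using h2
      induction ha using Subgroup.closure_induction with
      | mem x hx => exact Subgroup.subset_closure (h1 x hx)
      | one => simp [N.one_mem]
      | mul x y _ _ hx hy =>
        have : g * (x * y) * g⁻¹ = (g * x * g⁻¹) * (g * y * g⁻¹) := by group
        rw [this]
        exact N.mul_mem hx hy
      | inv x _ hx =>
        have : g * x⁻¹ * g⁻¹ = (g * x * g⁻¹)⁻¹ := by group
        rw [this]
        exact N.inv_mem hx
    have hq : Finite (G ⧸ N) := by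
      refine ih (G ⧸ N) (hC G _ (QuotientGroup.mk' N) (QuotientGroup.mk'_surjective N) hCG)
        inferInstance (ht.of_surjective (QuotientGroup.mk'_surjective N)) ?_
      intro z hz ys hys
      obtain ⟨z', hz', rfl⟩ := hS G _ (QuotientGroup.mk' N) (QuotientGroup.mk'_surjective N) hz
      obtain ⟨ys', hys'⟩ : ∃ ys' : List G, ys'.map (QuotientGroup.mk' N) = ys := by
        have := List.map_surjective_iff.2 (QuotientGroup.mk'_surjective N)
        exact this ys
      have h1 := map_chain (QuotientGroup.mk' N) z' ys'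
      rw [hys'] at h1
      rw [← h1, QuotientGroup.mk'_apply, QuotientGroup.eq_one_iff]
      refine Subgroup.subset_closure ⟨z', hz', ys', ?_, rfl⟩
      rw [← hys, ← hys', List.length_map]
    have : N.FiniteIndex := Subgroup.finiteIndex_of_finite_quotient
    have hNfg : Group.FG N := inferInstance
    have hNt : IsMulTorsion N := ht.subgroup N
    obtain ⟨l, hl1, hl2⟩ := exists_list_of_fg T ((Group.fg_iff_subgroup_fg N).1 hNfg)
    have hmem : ∀ v ∈ l, v ∈ N := fun v hv => Subgroup.subset_closure (hl1 v hv)
    have hNfin : Finite N := by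
      refine finite_of_list _ N (l.attach.map fun v => ⟨v.1, hmem v.1 v.2⟩) rfl hNfg hNt ?_ ?_
      · intro v hv g
        obtain ⟨u, _, rfl⟩ := List.mem_map.1 hv
        have h1 := hT u.1 (hl1 u.1 u.2) g
        exact Subtype.ext h1.eq
      · have h1 : Subgroup.map N.subtype (Subgroup.closure
            {v | v ∈ l.attach.map fun v => (⟨v.1, hmem v.1 v.2⟩ : N)}) =
            Subgroup.map N.subtype ⊤ := by
          rw [MonoidHom.map_closure, ← MonoidHom.range_eq_map, Subgroup.range_subtype]
          change _ = Subgroup.closure T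
          rw [← hl2]
          congr 1
          ext v
          constructor
          · rintro ⟨u, hu, rfl⟩
            obtain ⟨t, _, rfl⟩ := List.mem_map.1 hu
            exact t.2
          · intro hv
            exact ⟨⟨v, hmem v hv⟩, List.mem_map.2 ⟨⟨v, hv⟩, List.mem_attach _ _, rfl⟩, rfl⟩
        exact Subgroup.map_injective N.subtype_injective h1
    exact Finite.of_subgroup_quotient N

/-- the free group of the variety -/
theorem exists_bound {d : ℕ} {L : Set (FreeGroup ℕ)} (hL : FiniteGen d L) :
    ∃ e : ℕ, 1 ≤ e ∧ ∀ (H : Type) [Group H], Obeys L H → Gen d H → Nat.card H ≤ e := by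
  let S : Set (FreeGroup (Fin d)) :=
    {y | ∃ w ∈ L, ∃ f : ℕ → FreeGroup (Fin d), FreeGroup.lift f w = y}
  let N : Subgroup (FreeGroup (Fin d)) := Subgroup.normalClosure S
  let π : FreeGroup (Fin d) →* FreeGroup (Fin d) ⧸ N := QuotientGroup.mk' N
  have hπ : Function.Surjective π := QuotientGroup.mk'_surjective N
  have hml : ∀ {A B : Type} [Group A] [Group B] (φ : A →* B) (f : ℕ → A) (w : FreeGroup ℕ),
      φ (FreeGroup.lift f w) = FreeGroup.lift (fun i => φ (f i)) w := by
    intro A B _ _ φ f w
    have h : φ.comp (FreeGroup.lift f) = FreeGroup.lift (fun i => φ (f i)) := by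
      ext i
      simp
    exact DFunLike.congr_fun h w
  have hob : Obeys L (FreeGroup (Fin d) ⧸ N) := by
    intro w hw f
    obtain ⟨f', hf'⟩ : ∃ f' : ℕ → FreeGroup (Fin d), ∀ i, π (f' i) = f i :=
      ⟨fun i => (hπ (f i)).choose, fun i => (hπ (f i)).choose_spec⟩
    have h1 := hml π f' w
    have h2 : (fun i => π (f' i)) = f := funext hf'
    rw [h2] at h1
    rw [← h1]
    exact (QuotientGroup.eq_one_iff _).2 (Subgroup.subset_normalClosure ⟨w, hw, f', rfl⟩)
  have hgen : Gen d (FreeGroup (Fin d) ⧸ N) := by
    refine ⟨fun i => π (FreeGroup.of i), ?_⟩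
    have h1 : (Subgroup.closure (Set.range (FreeGroup.of : Fin d → FreeGroup (Fin d)))).map π =
        Subgroup.closure (Set.range fun i => π (FreeGroup.of i)) := by
      rw [MonoidHom.map_closure]
      congr 1
      exact (Set.range_comp π FreeGroup.of).symm
    rw [← h1, FreeGroup.closure_range_of]
    exact Subgroup.map_top_of_surjective π hπ
  have hfin := hL _ hob hgen
  refine ⟨Nat.card (FreeGroup (Fin d) ⧸ N), Nat.card_pos, ?_⟩
  intro H _ hH hg
  obtain ⟨g, hg⟩ := hg
  have hker : N ≤ (FreeGroup.lift g).ker := by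
    apply Subgroup.normalClosure_le_normal
    rintro _ ⟨w, hw, f, rfl⟩
    change FreeGroup.lift g (FreeGroup.lift f w) = 1
    rw [hml, hH w hw]
  let ψ : FreeGroup (Fin d) ⧸ N →* H := QuotientGroup.lift N (FreeGroup.lift g) hker
  have hψ : Function.Surjective ψ := by
    intro h
    have h1 : h ∈ (FreeGroup.lift g).range := by
      rw [FreeGroup.range_lift_eq_closure, hg]
      exact Subgroup.mem_top h
    obtain ⟨x, hx⟩ := h1
    exact ⟨π x, hx⟩
  exact Nat.card_le_card_of_surjective ψ hψ

end Pool.Agent.DChain
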