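import Pool.Agent.DChain.BS

/-!
# A normal `p`-subgroup of a group with finite three-generated subgroups
-/

set_option autoImplicit false

namespace Pool.Agent.DChain

open Subgroup

section

variable {G : Type} [Group G]

theorem pg_of_isPGroup {p : ℕ} {X : Subgroup G} (h : IsPGroup p X) : PG p X := by
  intro x hx
  obtain ⟨k, hk⟩ := h ⟨x, hx⟩
  exact ⟨k, congrArg Subtype.val hk⟩

/-- the elements which generate `p`-groups together with each of their conjugates -/
def Rset (p : ℕ) (G : Type) [Group G] : Set G :=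
  {z | ∀ y : G, PG p (Subgroup.closure {z, y * z * y⁻¹})}

theorem Rset.pow {p : ℕ} {z : G} (h : z ∈ Rset p G) : ∃ k : ℕ, z ^ p ^ k = 1 :=
  h 1 z (Subgroup.subset_closure (by simp))

theorem Rset.conj {p : ℕ} {z : G} (h : z ∈ Rset p G) (g : G) : g * z * g⁻¹ ∈ Rset p G := by
  intro y
  have h1 := (h (g⁻¹ * y * g)).map (MulAut.conj g).toMonoidHom
  rw [MonoidHom.map_closure, Set.image_pair] at h1
  have h2 : (MulAut.conj g).toMonoidHom z = g * z * g⁻¹ := rfl
  have h3 : (MulAut.conj g).toMonoidHom (g⁻¹ * y * g * z * (g⁻¹ * y * g)⁻¹) =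
      y * (g * z * g⁻¹) * y⁻¹ := by
    change g * (g⁻¹ * y * g * z * (g⁻¹ * y * g)⁻¹) * g⁻¹ = _
    group
  rw [h2, h3] at h1
  exact h1

/-- Baer and Suzuki -/
theorem Rset.core {p : ℕ} [Fact p.Prime] {z : G} (h : z ∈ Rset p G) {H : Subgroup G} [Finite H]
    (hz : z ∈ H) : ∃ M : Subgroup G, M ≤ H ∧ (∀ g ∈ H, ∀ m ∈ M, g * m * g⁻¹ ∈ M) ∧ PG p M ∧
      z ∈ M := by
  let z' : H := ⟨z, hz⟩
  let K : Set H := {x | ∃ g : H, x = g * z' * g⁻¹}
  have hK : ∀ g : H, ∀ y ∈ K, g * y * g⁻¹ ∈ K := by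
    rintro g _ ⟨g', rfl⟩
    exact ⟨g * g', by group⟩
  have hp : ∀ x ∈ K, ∀ y ∈ K, IsPGroup p (Subgroup.closure {x, y}) := by
    rintro _ ⟨g, rfl⟩ _ ⟨g', rfl⟩
    apply isPGroup_of_pg
    apply PG.of_map H.subtype_injective
    rw [MonoidHom.map_closure, Set.image_pair]
    have h1 := Rset.conj h (g : G) ((g' : G) * (g : G)⁻¹)
    have h2 : (g' : G) * (g : G)⁻¹ * ((g : G) * z * (g : G)⁻¹) * ((g' : G) * (g : G)⁻¹)⁻¹ =
        g' * z * (g' : G)⁻¹ := by group
    rw [h2] at h1
    exact h1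
  have h1 := pg_of_isPGroup (baer_suzuki hK hp)
  refine ⟨(Subgroup.closure K).map H.subtype, ?_, ?_, h1.map _, ?_⟩
  · rintro _ ⟨x, _, rfl⟩
    exact x.2
  · have hn : ∀ g : H, ∀ m ∈ Subgroup.closure K, g * m * g⁻¹ ∈ Subgroup.closure K := by
      intro g m hm
      induction hm using Subgroup.closure_induction with
      | mem z hz => exact Subgroup.subset_closure (hK g z hz)
      | one => simp
      | mul a b _ _ ha hb =>
        have : g * (a * b) * g⁻¹ = (g * a * g⁻¹) * (g * b * g⁻¹) := by group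
        rw [this]
        exact Subgroup.mul_mem _ ha hb
      | inv a _ ha =>
        have : g * a⁻¹ * g⁻¹ = (g * a * g⁻¹)⁻¹ := by group
        rw [this]
        exact Subgroup.inv_mem _ ha
    rintro g hg _ ⟨m, hm, rfl⟩
    exact ⟨_, hn ⟨g, hg⟩ m hm, rfl⟩
  · exact ⟨z', Subgroup.subset_closure ⟨1, by simp⟩, rfl⟩

/-- the normal `p`-subgroup -/
def Rsub (p : ℕ) [Fact p.Prime] (G : Type) [Group G]
    (hfin : ∀ a b c : G, Finite (Subgroup.closure {a, b, c})) : Subgroup G where
  carrier := Rset p G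
  one_mem' := by
    intro y x hx
    have h1 : ({1, y * 1 * y⁻¹} : Set G) = {1} := by simp
    rw [h1, Subgroup.closure_singleton_one, Subgroup.mem_bot] at hx
    exact ⟨0, by rw [hx, one_pow]⟩
  inv_mem' := by
    intro z hz y
    refine PG.mono ?_ (hz y)
    rw [Subgroup.closure_le]
    rintro x hx
    rcases hx with rfl | hx
    · exact Subgroup.inv_mem _ (Subgroup.subset_closure (by simp))
    · rw [Set.mem_singleton_iff] at hx
      have h1 : x = (y * z * y⁻¹)⁻¹ := by rw [hx]; group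
      rw [h1]
      exact Subgroup.inv_mem _ (Subgroup.subset_closure (by simp))
  mul_mem' := by
    intro u v hu hv y
    have := hfin u v y
    set H : Subgroup G := Subgroup.closure {u, v, y} with hH
    have huH : u ∈ H := Subgroup.subset_closure (by simp)
    have hvH : v ∈ H := Subgroup.subset_closure (by simp)
    have hyH : y ∈ H := Subgroup.subset_closure (by simp)
    obtain ⟨M, hMH, hMn, hMp, huM⟩ := Rset.core hu huH
    obtain ⟨M', hMH', hMn', hMp', hvM⟩ := Rset.core hv hvH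
    have hle : M' ≤ Subgroup.normalizer (M : Set G) := by
      intro g hg
      rw [Subgroup.mem_normalizer_iff]
      intro x
      refine ⟨fun hx => hMn g (hMH' hg) x hx, fun hx => ?_⟩
      have h1 := hMn g⁻¹ (H.inv_mem (hMH' hg)) _ hx
      have h2 : g⁻¹ * (g * x * g⁻¹) * g⁻¹⁻¹ = x := by group
      rwa [h2] at h1
    have h1 : IsPGroup p (M ⊔ M' : Subgroup G) :=
      IsPGroup.to_sup_of_normal_left' (isPGroup_of_pg hMp) (isPGroup_of_pg hMp') hle
    refine PG.mono ?_ (pg_of_isPGroup h1)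
    have h2 : u * v ∈ M ⊔ M' :=
      Subgroup.mul_mem _ (Subgroup.mem_sup_left huM) (Subgroup.mem_sup_right hvM)
    have h3 : y * (u * v) * y⁻¹ ∈ M ⊔ M' := by
      have h4 : y * (u * v) * y⁻¹ = (y * u * y⁻¹) * (y * v * y⁻¹) := by group
      rw [h4]
      exact Subgroup.mul_mem _ (Subgroup.mem_sup_left (hMn y hyH u huM))
        (Subgroup.mem_sup_right (hMn' y hyH v hvM))
    rw [Subgroup.closure_le]
    rintro x hx
    rcases hx with rfl | hx
    · exact h2
    · rw [Set.mem_singleton_iff] at hx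
      rw [hx]
      exact h3

theorem Rsub_normal (p : ℕ) [Fact p.Prime]
    (hfin : ∀ a b c : G, Finite (Subgroup.closure {a, b, c})) : (Rsub p G hfin).Normal :=
  ⟨fun _ hz g => Rset.conj hz g⟩

theorem mem_Rsub (p : ℕ) [Fact p.Prime]
    (hfin : ∀ a b c : G, Finite (Subgroup.closure {a, b, c})) (z : G) :
    z ∈ Rsub p G hfin ↔ z ∈ Rset p G := Iff.rfl

end

end Pool.Agent.DChain
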