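import Pool.Agent.DChain.Main
import Pool.Agent.DChain.Rad

/-!
# Reduction to `p`-groups
-/

set_option autoImplicit false

namespace Pool.Agent.DChain

open Subgroup
open scoped commutatorElement

/-- The finitely generated `p`-groups which obey `L` are finite. -/
def PLocFin (p : ℕ) (L : Set (FreeGroup ℕ)) : Prop :=
  ∀ (B : Type) [Group B], Obeys L B → Group.FG B → (∀ b : B, ∃ n : ℕ, b ^ p ^ n = 1) → Finite B

theorem finite_three {d : ℕ} (hd : 3 ≤ d) {L : Set (FreeGroup ℕ)} (hL : FiniteGen d L)
    {G : Type} [Group G] (hG : Obeys L G) (a b c : G) : Finite (Subgroup.closure {a, b, c}) := by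
  have h1 : Finite (Subgroup.closure {v | v ∈ [a, b, c]}) :=
    hL _ (hG.subgroup _) (gen_closure [a, b, c] (by simpa using hd))
  have h2 : ({v | v ∈ [a, b, c]} : Set G) = {a, b, c} := by
    ext v
    simp
  rw [h2] at h1
  exact h1

section

variable {d k : ℕ} (hd : 3 ≤ d) (hk : k + 2 ≤ d) (V : Set (FreeGroup (Fin k)))
  (L : Set (FreeGroup ℕ)) (hL : FiniteGen d L)
  (hbase : ∀ (B : Type) [Group B], Obeys L B → Group.FG B →
    (∀ w ∈ V, ∀ f : Fin k → B, FreeGroup.lift f w = 1) → Finite B)
  (hsol : ∀ (H : Type) [Group H], Obeys L H → Gen d H →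
    Group.IsSolvable (vb V (⊤ : Subgroup H)))
  (hp : ∀ p : ℕ, p.Prime → PLocFin p L)

include hd hk hL hbase hsol hp

/-- The main theorem. -/
theorem locFin_of_pgroups : LocFin L := by
  obtain ⟨K, hKdef⟩ : ∃ K, K = max 2 (k + 1) := ⟨_, rfl⟩
  have hK2 : 2 ≤ K := hKdef ▸ le_max_left _ _
  have hkK : k + 1 ≤ K := hKdef ▸ le_max_right _ _
  have hKd : K + 1 ≤ d := by
    rcases max_choice 2 (k + 1) with h | h <;> omega
  obtain ⟨e, he, hbd⟩ := exists_bound hL
  -- subgroups with few generators
  have hsub : ∀ (G : Type) [Group G], Obeys L G → ∀ l : List G, l.length ≤ d →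
      Obeys L (Subgroup.closure {v | v ∈ l}) ∧ Gen d (Subgroup.closure {v | v ∈ l}) :=
    fun G _ hG l hl => ⟨hG.subgroup _, gen_closure l hl⟩
  -- detection
  have hdet : ∀ (G : Type) [Group G], Obeys L G → ∀ l : List G, l.length ≤ d → ∀ j : ℕ,
      (∀ g : Fin K → G, F V e j (Subgroup.closure (Set.range g)) = ⊥) →
      F V e j (⊤ : Subgroup (Subgroup.closure {v | v ∈ l})) = ⊥ := by
    intro G _ hG l hl j hj
    obtain ⟨ho, hg⟩ := hsub G hG l hl
    have hfin : Finite (Subgroup.closure {v | v ∈ l}) := hL _ ho hg
    apply detect hkK hK2 V _ (hsol _ ho hg) (hbd _ ho hg)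
    intro g
    apply Subgroup.map_injective (Subgroup.closure {v | v ∈ l}).subtype_injective
    rw [F_map, map_range, Subgroup.map_bot]
    exact hj _
  -- the elements of `p`-power order
  have hmem : ∀ (G : Type) [Group G], Obeys L G → ∀ j : ℕ,
      (∀ g : Fin K → G, F V e (j + 1) (Subgroup.closure (Set.range g)) = ⊥) →
      ∀ p : ℕ, p.Prime → ∀ g : Fin K → G, ∀ z ∈ F V e j (Subgroup.closure (Set.range g)),
      (∃ n : ℕ, z ^ p ^ n = 1) → z ∈ Rset p G := by
    intro G _ hG j hj p hpp g z hz hzp y
    let l : List G := List.ofFn g ++ [y]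
    have hl : l.length ≤ d := by
      simp only [l, List.length_append, List.length_ofFn, List.length_singleton]
      omega
    obtain ⟨ho, hgen⟩ := hsub G hG l hl
    have hfin : Finite (Subgroup.closure {v | v ∈ l}) := hL _ ho hgen
    have hF := hdet G hG l hl (j + 1) hj
    set H : Subgroup G := Subgroup.closure {v | v ∈ l} with hH
    have hg : ∀ i, g i ∈ H := fun i =>
      Subgroup.subset_closure (List.mem_append_left _ (by simp))
    have hy : y ∈ H := Subgroup.subset_closure (List.mem_append_right _ (by simp))
    have hzH : z ∈ F V e j H := by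
      refine F_mono V e j ?_ hz
      rw [Subgroup.closure_le]
      rintro _ ⟨i, rfl⟩
      exact hg i
    rw [← F_top_map] at hzH
    obtain ⟨z', hz', rfl⟩ := hzH
    set T : Subgroup H := F V e j ⊤ with hT
    have hTn : T.Normal := F_normal V e j ⊤
    have hTnil : Group.IsNilpotent T := nil_of_lcs hF
    obtain ⟨B, hB⟩ := exists_tsub hTnil hpp
    have hz'B : z' ∈ B := by
      rw [hB]
      obtain ⟨n, hn⟩ := hzp
      exact ⟨hz', n, H.subtype_injective (by rw [map_pow, map_one]; exact hn)⟩
    have hBn : ∀ h : H, ∀ b ∈ B, h * b * h⁻¹ ∈ B := by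
      intro h b hb
      rw [hB] at hb ⊢
      obtain ⟨hb1, n, hn⟩ := hb
      exact ⟨hTn.conj_mem b hb1 h, n, by rw [conj_pow, hn]; group⟩
    have hBp : PG p B := fun b hb => ((hB b).1 hb).2
    refine PG.mono ?_ (hBp.map H.subtype)
    rw [Subgroup.closure_le]
    rintro x hx
    rcases hx with rfl | hx
    · exact ⟨z', hz'B, rfl⟩
    · rw [Set.mem_singleton_iff] at hx
      rw [hx]
      exact ⟨_, hBn ⟨y, hy⟩ z' hz'B, rfl⟩
  have main : ∀ j : ℕ, ∀ (G : Type) [Group G], Obeys L G → Group.FG G →
      (∀ g : Fin K → G, F V e j (Subgroup.closure (Set.range g)) = ⊥) → Finite G := by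
    intro j
    induction j with
    | zero =>
      intro G _ hG hfg h
      apply hbase G hG hfg
      intro w hw f
      obtain ⟨g, hg⟩ := exists_fun (K := K) (List.ofFn f) (by rw [List.length_ofFn]; omega)
      have h3 : FreeGroup.lift f w ∈ F V e 0 (Subgroup.closure (Set.range g)) := by
        rw [hg]
        exact mem_vb V hw fun i => Subgroup.subset_closure (by simp)
      rw [h g] at h3
      exact h3
    | succ j ih =>
      -- induction on the number of primes
      have inner : ∀ n : ℕ, ∀ (G : Type) [Group G], Obeys L G → Group.FG G →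
          (∀ g : Fin K → G, F V e (j + 1) (Subgroup.closure (Set.range g)) = ⊥) →
          (∀ g : Fin K → G, ∀ p : ℕ, p.Prime → n ≤ p →
            ∀ z ∈ F V e j (Subgroup.closure (Set.range g)), z ^ p = 1 → z = 1) → Finite G := by
        intro n
        induction n with
        | zero =>
          intro G _ hG hfg _ h
          refine ih G hG hfg fun g => ?_
          rw [eq_bot_iff]
          intro z hz
          rw [Subgroup.mem_bot]
          by_contra hz1
          have hfin : IsOfFinOrder z := torsion_of_finiteGen (by omega) hL hG z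
          have ho : orderOf z ≠ 1 := by
            intro h1
            exact hz1 (orderOf_eq_one_iff.1 h1)
          obtain ⟨p, hpp, hpd⟩ := Nat.exists_prime_and_dvd ho
          have h2 : (z ^ (orderOf z / p)) ^ p = 1 := by
            rw [← pow_mul, Nat.div_mul_cancel hpd, pow_orderOf_eq_one]
          have h3 := h g p hpp (Nat.zero_le _) _ (Subgroup.pow_mem _ hz _) h2
          have h4 := orderOf_dvd_of_pow_eq_one h3
          have h0 : 0 < orderOf z := hfin.orderOf_pos
          have h5 : orderOf z / p < orderOf z := Nat.div_lt_self h0 hpp.one_lt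
          have h6 : 0 < orderOf z / p := Nat.div_pos (Nat.le_of_dvd h0 hpd) hpp.pos
          exact absurd (Nat.le_of_dvd h6 h4) (by omega)
        | succ n ihn =>
          intro G _ hG hfg hF h
          by_cases hn : n.Prime
          · have := Fact.mk hn
            have h3g := finite_three hd hL hG
            set R : Subgroup G := Rsub n G h3g with hR
            have hRn : R.Normal := Rsub_normal n h3g
            let π : G →* G ⧸ R := QuotientGroup.mk' R
            have hπ : Function.Surjective π := QuotientGroup.mk'_surjective R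
            have hker : ∀ y, π y = 1 ↔ y ∈ R := fun y => QuotientGroup.eq_one_iff y
            have hlift : ∀ g : Fin K → G ⧸ R, ∃ g' : Fin K → G,
                (Subgroup.closure (Set.range g')).map π = Subgroup.closure (Set.range g) := by
              intro g
              refine ⟨fun i => (hπ (g i)).choose, ?_⟩
              rw [map_range]
              congr 2
              exact funext fun i => (hπ (g i)).choose_spec
            have hq : Finite (G ⧸ R) := by
              refine ihn (G ⧸ R) (hG.of_surjective π hπ) inferInstance ?_ ?_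
              · intro g
                obtain ⟨g', hg'⟩ := hlift g
                rw [← hg', ← F_map, hF g', Subgroup.map_bot]
              · intro g p hpp hnp z hz hzp
                obtain ⟨g', hg'⟩ := hlift g
                rw [← hg', ← F_map] at hz
                obtain ⟨z', hz', rfl⟩ := hz
                rw [← map_pow, hker] at hzp
                obtain ⟨k, hk⟩ := Rset.pow ((mem_Rsub n h3g _).1 hzp)
                rw [hker]
                apply (mem_Rsub n h3g _).2
                apply hmem G hG j hF n hn g' z' hz'
                rcases Nat.lt_or_ge n p with hlt | hge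
                · -- `p ≠ n`
                  refine ⟨k, ?_⟩
                  apply h g' p hpp (by omega) _ (Subgroup.pow_mem _ hz' _)
                  rw [← pow_mul, mul_comm, pow_mul]
                  exact hk
                · have hpn : p = n := le_antisymm hge hnp
                  rw [hpn] at hk
                  refine ⟨k + 1, ?_⟩
                  rw [pow_succ', pow_mul]
                  exact hk
            have : R.FiniteIndex := Subgroup.finiteIndex_of_finite_quotient
            have hRfg : Group.FG R := inferInstance
            have hRfin : Finite R := by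
              apply hp n hn R (hG.subgroup R) hRfg
              rintro ⟨z, hz⟩
              obtain ⟨k, hk⟩ := Rset.pow ((mem_Rsub n h3g _).1 hz)
              exact ⟨k, Subtype.ext hk⟩
            exact Finite.of_subgroup_quotient R
          · refine ihn G hG hfg hF ?_
            intro g p hpp hnp z hz hzp
            rcases Nat.lt_or_ge n p with hlt | hge
            · exact h g p hpp (by omega) z hz hzp
            · have hpn : p = n := le_antisymm hge hnp
              exact absurd (hpn ▸ hpp) hn
      intro G _ hG hfg hF
      refine inner (e + 1) G hG hfg hF ?_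
      intro g p hpp hep z hz hzp
      by_contra hz1
      obtain ⟨l, hl, hle⟩ : ∃ l : List G, l.length ≤ d ∧
          Subgroup.closure {v | v ∈ l} = Subgroup.closure (Set.range g) := by
        refine ⟨List.ofFn g, by rw [List.length_ofFn]; omega, ?_⟩
        congr 1
        ext v
        simp [List.mem_ofFn]
      obtain ⟨ho, hgen⟩ := hsub G hG l hl
      have hfin : Finite (Subgroup.closure {v | v ∈ l}) := hL _ ho hgen
      have hcard := hbd _ ho hgen
      have hzl : z ∈ Subgroup.closure {v | v ∈ l} := by
        rw [hle]
        exact F_le V e j _ hz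
      have := Fact.mk hpp
      have h1 : orderOf z = p := orderOf_eq_prime hzp hz1
      have h2 : orderOf z ≤ Nat.card (Subgroup.closure {v | v ∈ l}) := by
        have h3 := _root_.orderOf_le_card (x := (⟨z, hzl⟩ : Subgroup.closure {v | v ∈ l}))
        rwa [Subgroup.orderOf_mk] at h3
      omega
  intro G _ hG hfg
  refine main e G hG hfg fun g => ?_
  obtain ⟨l, hl, hle⟩ : ∃ l : List G, l.length ≤ d ∧
      Subgroup.closure {v | v ∈ l} = Subgroup.closure (Set.range g) := by
    refine ⟨List.ofFn g, by rw [List.length_ofFn]; omega, ?_⟩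
    congr 1
    ext v
    simp [List.mem_ofFn]
  obtain ⟨ho, hgen⟩ := hsub G hG l hl
  have hfin : Finite (Subgroup.closure {v | v ∈ l}) := hL _ ho hgen
  have hcard := hbd _ ho hgen
  have hs := hsol _ ho hgen
  rw [← hle]
  refine F_eq_bot V he _ ?_ hcard
  have h3 : (vb V (⊤ : Subgroup (Subgroup.closure {v | v ∈ l}))).map
      (Subgroup.closure {v | v ∈ l}).subtype = vb V (Subgroup.closure {v | v ∈ l}) := by
    rw [vb_map, ← MonoidHom.range_eq_map, Subgroup.range_subtype]
  rw [← h3]
  exact Group.isSolvable_of_surjective
    ((Subgroup.closure {v | v ∈ l}).subtype.subgroupMap_surjective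
      (vb V (⊤ : Subgroup (Subgroup.closure {v | v ∈ l}))))

end

end Pool.Agent.DChain
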